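import Pool.Agent.Work.MP_574bbd_an.OB.Stmts

/-!
# MP_574bbd_an, block OB, item CO: the cocycle equation in logarithmic form
-/

set_option autoImplicit false

namespace Pool.Agent.Work.MP_574bbd_an.OB

open MeasureTheory
open scoped Pointwise Classical

namespace XCO

theorem cyl (hR : S_R) (G K : Type) [Countable K] [MeasurableSpace K] [MeasurableSingletonClass K]
    (ν : Measure K) [IsProbabilityMeasure ν] (A : Finset G) (q : G → K) :
    bm G ν {y | ∀ g ∈ A, y g = q g} = ∏ g ∈ A, ν {q g} := by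
  have hp : IsProbabilityMeasure (bm G ν) := by
    unfold bm
    infer_instance
  have h := hR G K ν A q Set.univ MeasurableSet.univ
  rw [Set.univ_inter] at h
  rw [h]
  have h2 : {y : G → K | ow A q y ∈ Set.univ} = Set.univ := by
    ext y
    simp
  rw [h2, measure_univ, mul_one]

theorem real_prod {K : Type} [MeasurableSpace K] (ν : Measure K) {G : Type} (A : Finset G) (q : G → K) :
    (∏ g ∈ A, ν {q g}).toReal = ∏ g ∈ A, ν.real {q g} := by
  rw [ENNReal.toReal_prod]
  rfl

theorem pos {K : Type} [MeasurableSpace K] (ν : Measure K) [IsProbabilityMeasure ν] (k : K)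
    (h : ν {k} ≠ 0) : ν.real {k} ≠ 0 := by
  unfold Measure.real
  exact (ENNReal.toReal_pos h (measure_ne_top ν _)).ne'

end XCO

theorem pr_CO (hR : S_R) (hCO1 : S_CO1) : S_CO := by
  intro G L K _ _ _ _ _ _ _ _ lam kap _ _ W φ ψ hI A x y hxy
  obtain ⟨E, hE⟩ : ∃ E : Finset G, E = A ∪ W * (W⁻¹ * A) := ⟨_, rfl⟩
  have hA : A ⊆ E := by
    rw [hE]
    exact Finset.subset_union_left
  have hW : W * (W⁻¹ * A) ⊆ E := by
    rw [hE]
    exact Finset.subset_union_right
  have h1 := hCO1 G L K lam kap W φ ψ hI A E x y hxy hA hW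
  have h2 := hCO1 G L K lam kap W φ ψ hI A E y x (fun g hg => (hxy g hg).symm) hA hW
  have h3 := le_antisymm h1 h2
  rw [XCO.cyl hR, XCO.cyl hR] at h3
  have h4 := congrArg ENNReal.toReal h3
  rw [ENNReal.toReal_mul, ENNReal.toReal_mul, XCO.real_prod, XCO.real_prod, XCO.real_prod,
    XCO.real_prod] at h4
  have n1 : ∀ z : G → L, ∀ g ∈ E, lam.real {z g} ≠ 0 := fun z g _ => XCO.pos lam _ (hI.pl _)
  have n2 : ∀ z : G → L, ∀ g ∈ W⁻¹ * A, kap.real {φ z g} ≠ 0 := fun z g _ => XCO.pos kap _ (hI.pk _)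
  have h5 := congrArg Real.log h4
  rw [Real.log_mul (Finset.prod_ne_zero_iff.2 (n1 x)) (Finset.prod_ne_zero_iff.2 (n2 y)),
    Real.log_mul (Finset.prod_ne_zero_iff.2 (n1 y)) (Finset.prod_ne_zero_iff.2 (n2 x)),
    Real.log_prod (n1 x), Real.log_prod (n1 y), Real.log_prod (n2 x), Real.log_prod (n2 y)] at h5
  have h6 : ∑ g ∈ A, (Real.log (lam.real {x g}) - Real.log (lam.real {y g})) =
      ∑ g ∈ E, (Real.log (lam.real {x g}) - Real.log (lam.real {y g})) := by
    refine Finset.sum_subset hA fun g _ hg => ?_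
    rw [hxy g hg, sub_self]
  rw [h6, Finset.sum_sub_distrib, Finset.sum_sub_distrib]
  linarith

end Pool.Agent.Work.MP_574bbd_an.OB
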