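import Pool.Agent.Work.MP_574bbd_an.OB.Stmts

/-!
# MP_574bbd_an, block OB, item CO1: comparison of cylinder sets
-/

set_option autoImplicit false

namespace Pool.Agent.Work.MP_574bbd_an.OB

open MeasureTheory
open scoped Pointwise Classical

theorem CO1_meas {G L : Type} [MeasurableSpace L] [MeasurableSingletonClass L] (E : Finset G)
    (x : G → L) : MeasurableSet {z : G → L | ∀ g ∈ E, z g = x g} := by
  have h : {z : G → L | ∀ g ∈ E, z g = x g} = ⋂ g ∈ E, (fun z : G → L => z g) ⁻¹' {x g} := by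
    ext z
    simp
  rw [h]
  exact Finset.measurableSet_biInter _ fun g _ =>
    (measurable_pi_apply g) (measurableSet_singleton _)

theorem CO1_ow_ow {G K : Type} (A : Finset G) (p q w : G → K) : ow A q (ow A p w) = ow A q w := by
  funext g
  unfold ow
  by_cases hg : g ∈ A
  · simp [hg]
  · simp [hg]

/-- Item CO1. -/
theorem pr_CO1 (h1 : S_R) (h2 : S_N) (h3 : S_LOC) (h4 : S_PP) : S_CO1 := by
  intro G L K _ _ _ _ _ _ _ _ lam kap _ _ W φ ψ hI A E x y hxy hAE hWE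
  obtain ⟨q1, q2, q3⟩ := h4 G L K lam kap W φ ψ hI
  have loc := h3 G L K lam kap W φ ψ hI
  -- values on W⁻¹ * A
  have hval : ∀ z x' : G → L, (∀ g ∈ E, z g = x' g) → ∀ g ∈ W⁻¹ * A, φ z g = φ x' g := by
    intro z x' hz g hg
    refine loc z x' g fun h hh => hz _ (hWE ?_)
    exact Finset.mul_mem_mul hh hg
  have hout : ∀ z : G → L, ∀ g, g ∉ W⁻¹ * A → φ (ow A y z) g = φ z g := by
    intro z g hg
    refine loc _ _ g fun h hh => ?_
    have hn : h * g ∉ A := by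
      intro hA
      apply hg
      have := Finset.mul_mem_mul (Finset.inv_mem_inv hh) hA
      rwa [inv_mul_cancel_left] at this
    unfold ow
    rw [if_neg hn]
  have hC' : ∀ z : G → L, (∀ g ∈ E, z g = x g) → ∀ g ∈ E, ow A y z g = y g := by
    intro z hz g hg
    unfold ow
    by_cases hA : g ∈ A
    · rw [if_pos hA]
    · rw [if_neg hA, hz g hg, hxy g hA]
  have key : ∀ z : G → L, (∀ g ∈ E, z g = x g) → φ (ow A y z) = ow (W⁻¹ * A) (φ y) (φ z) := by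
    intro z hz
    funext g
    by_cases hg : g ∈ W⁻¹ * A
    · rw [hval _ y (hC' z hz) g hg]
      unfold ow
      rw [if_pos hg]
    · rw [hout z g hg]
      unfold ow
      rw [if_neg hg]
  -- the measure of a cylinder set
  have hcyl : ∀ x' : G → L, bm G lam {z | ∀ g ∈ E, z g = x' g} =
      (∏ g ∈ W⁻¹ * A, kap {φ x' g}) *
        bm G kap {w | ow (W⁻¹ * A) (φ x') w ∈ ψ ⁻¹' {z | ∀ g ∈ E, z g = x' g}} := by
    intro x'
    rw [← q3 _ (CO1_meas E x'), ← h1 G K kap (W⁻¹ * A) (φ x') _ (hI.mψ (CO1_meas E x'))]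
    apply measure_congr
    filter_upwards [q2] with w hw
    apply propext
    constructor
    · intro hz
      refine ⟨hz, fun g hg => ?_⟩
      have := hval (ψ w) x' hz g hg
      rw [hw] at this
      exact this
    · intro hz
      exact hz.1
  have hle : bm G kap {w | ow (W⁻¹ * A) (φ x) w ∈ ψ ⁻¹' {z | ∀ g ∈ E, z g = x g}} ≤
      bm G kap {w | ow (W⁻¹ * A) (φ y) w ∈ ψ ⁻¹' {z | ∀ g ∈ E, z g = y g}} := by
    apply measure_mono_ae
    have a1 : ∀ᵐ w ∂(bm G kap), φ (ψ (ow (W⁻¹ * A) (φ x) w)) = ow (W⁻¹ * A) (φ x) w :=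
      h2 G K kap (W⁻¹ * A) (φ x) (fun w => φ (ψ w) = w) hI.pk q2
    have a2 : ∀ᵐ z ∂(bm G lam), ψ (φ (ow A y z)) = ow A y z :=
      h2 G L lam A y (fun z => ψ (φ z) = z) hI.pl hI.inv
    have a3 : ∀ᵐ w ∂(bm G kap), ψ (φ (ow A y (ψ w))) = ow A y (ψ w) :=
      q1 (fun z => ψ (φ (ow A y z)) = ow A y z) a2
    have a4 : ∀ᵐ w ∂(bm G kap), ψ (φ (ow A y (ψ (ow (W⁻¹ * A) (φ x) w)))) =
        ow A y (ψ (ow (W⁻¹ * A) (φ x) w)) :=
      h2 G K kap (W⁻¹ * A) (φ x) (fun w => ψ (φ (ow A y (ψ w))) = ow A y (ψ w)) hI.pk a3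
    filter_upwards [a1, a4] with w hw1 hw4
    intro hz
    have hz' : ∀ g ∈ E, ψ (ow (W⁻¹ * A) (φ x) w) g = x g := hz
    have e1 : φ (ow A y (ψ (ow (W⁻¹ * A) (φ x) w))) = ow (W⁻¹ * A) (φ y) w := by
      rw [key _ hz', hw1, CO1_ow_ow]
    rw [e1] at hw4
    change ∀ g ∈ E, ψ (ow (W⁻¹ * A) (φ y) w) g = y g
    rw [hw4]
    exact hC' _ hz'
  rw [hcyl x, hcyl y]
  calc (∏ g ∈ W⁻¹ * A, kap {φ x g}) *
        bm G kap {w | ow (W⁻¹ * A) (φ x) w ∈ ψ ⁻¹' {z | ∀ g ∈ E, z g = x g}} *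
          (∏ g ∈ W⁻¹ * A, kap {φ y g}) ≤ (∏ g ∈ W⁻¹ * A, kap {φ x g}) *
        bm G kap {w | ow (W⁻¹ * A) (φ y) w ∈ ψ ⁻¹' {z | ∀ g ∈ E, z g = y g}} *
          (∏ g ∈ W⁻¹ * A, kap {φ y g}) := by gcongr
    _ = (∏ g ∈ W⁻¹ * A, kap {φ y g}) *
        bm G kap {w | ow (W⁻¹ * A) (φ y) w ∈ ψ ⁻¹' {z | ∀ g ∈ E, z g = y g}} *
          (∏ g ∈ W⁻¹ * A, kap {φ x g}) := by ring

end Pool.Agent.Work.MP_574bbd_an.OB
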