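import Mathlib

/-!
# MP_574bbd_an, block OB (captain helper99): one-sided block codes between Bernoulli shifts

THEOREM. G any countable group, L and K finite, lam of full support on L, alpha : (G → L) → K with
letters of positive probability and independent translates. (E) If alpha is generating and reads finitely
many coordinates then the letter at the constant configuration a has probability
exp (H(lam) - H(alpha)) lam(a). (D) If x(1) is decoded from finitely many letters by δ then
lam(δ(constant k)) = exp (H(alpha) - H(lam)) P(alpha = k). Consequences for the entropies.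

Item X: statement S_X, file OB/I_X.lean, theorem pr_X : S_X with hypotheses among the other S_.. (earlier
items are hypotheses, never wait). Nothing but Mathlib is needed.
-/

set_option autoImplicit false

namespace Pool.Agent.Work.MP_574bbd_an.OB

open MeasureTheory
open scoped Pointwise Classical

/-- The shift: (sh g x) h = x (h g). -/
def sh {G L : Type} [Group G] (g : G) (x : G → L) : G → L := fun h => x (h * g)

/-- Overwrite x by q on A. -/
noncomputable def ow {G L : Type} (A : Finset G) (q x : G → L) : G → L :=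
  fun g => if g ∈ A then q g else x g

/-- The product measure. -/
noncomputable def bm (G : Type) {L : Type} [MeasurableSpace L] (ν : Measure L) : Measure (G → L) :=
  Measure.infinitePi fun _ : G => ν

/-- Shannon entropy of a measure on a finite set. -/
noncomputable def ent {L : Type} [Fintype L] [MeasurableSpace L] (ν : Measure L) : ℝ :=
  ∑ a : L, Real.negMulLog (ν.real {a})

/-- φ and ψ are mutually inverse (almost everywhere) isomorphisms of the Bernoulli shifts over lam
and kap; φ is equivariant, and φ x 1 depends only on the coordinates of x in W. -/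
structure Iso {G L K : Type} [Group G] [MeasurableSpace L] [MeasurableSpace K] (lam : Measure L)
    (kap : Measure K) (W : Finset G) (φ : (G → L) → (G → K)) (ψ : (G → K) → (G → L)) : Prop where
  one : (1 : G) ∈ W
  pl : ∀ a, lam {a} ≠ 0
  pk : ∀ k, kap {k} ≠ 0
  mφ : Measurable φ
  mψ : Measurable ψ
  eq : ∀ g x, φ (sh g x) = sh g (φ x)
  mp : Measure.map φ (bm G lam) = bm G kap
  inv : ∀ᵐ x ∂(bm G lam), ψ (φ x) = x
  loc : ∀ x y : G → L, (∀ g ∈ W, x g = y g) → φ x 1 = φ y 1

/-! ## 1. Overwriting -/

/-- R1 (MEDIUM) one coordinate. PROOF. The map U : (y, k') ↦ Function.update y s k' sends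
(bm G ν).prod ν to bm G ν: apply Measure.eq_infinitePi (or its form for probability measures): for a
finite set I and measurable t i, the preimage of the box is {y | ∀ i ∈ I.erase s, y i ∈ t i} ×ˢ (t s if
s ∈ I, univ otherwise), whose measure is the product by Measure.prod_prod and
Measure.infinitePi_pi. Then bm G ν (S ∩ {y | y s = k}) is the product measure of
{(y, k') | update y s k' ∈ S, k' = k} = {y | update y s k ∈ S} ×ˢ {k}. -/
def S_R1 : Prop := ∀ (G K : Type) [Countable K] [MeasurableSpace K] [MeasurableSingletonClass K]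
  (ν : Measure K) [IsProbabilityMeasure ν] (s : G) (k : K) (S : Set (G → K)), MeasurableSet S →
  bm G ν (S ∩ {y | y s = k}) = ν {k} * bm G ν {y | Function.update y s k ∈ S}

/-- R (MEDIUM) finitely many coordinates. PROOF. Induction on A (Finset.induction_on, q fixed, for all
measurable S). A = ∅: ow ∅ q y = y. For s ∉ A: the set for insert s A is
(S ∩ {y | ∀ g ∈ A, y g = q g}) ∩ {y | y s = q s}; by S_R1 its measure is ν {q s} times the measure of
{y | update y s (q s) ∈ S} ∩ {y | ∀ g ∈ A, y g = q g} (s ∉ A, so the update does not change the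
coordinates in A); the set {y | update y s (q s) ∈ S} is measurable (measurable_update'), by induction the
last measure is the product over A times the measure of {y | update (ow A q y) s (q s) ∈ S}, and
update (ow A q y) s (q s) = ow (insert s A) q y. Finset.prod_insert. -/
def S_R : Prop := ∀ (G K : Type) [Countable K] [MeasurableSpace K] [MeasurableSingletonClass K]
  (ν : Measure K) [IsProbabilityMeasure ν] (A : Finset G) (q : G → K) (S : Set (G → K)),
  MeasurableSet S →
  bm G ν (S ∩ {y | ∀ g ∈ A, y g = q g}) = (∏ g ∈ A, ν {q g}) * bm G ν {y | ow A q y ∈ S}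

/-- N (EASY) overwriting is nonsingular. PROOF. Let Z be the measurable hull (toMeasurable) of the null set
{w | ¬ P w}; by S_R with S = Z: 0 = ν(Z ∩ ..) = (∏ ..) * ν {w | ow A q w ∈ Z} and the product is not zero
(Finset.prod_ne_zero_iff). So {w | ow A q w ∈ Z} is null and contains {w | ¬ P (ow A q w)}. -/
def S_N : Prop := ∀ (G K : Type) [Countable K] [MeasurableSpace K] [MeasurableSingletonClass K]
  (ν : Measure K) [IsProbabilityMeasure ν] (A : Finset G) (q : G → K) (P : (G → K) → Prop),
  (∀ k, ν {k} ≠ 0) → (∀ᵐ w ∂(bm G ν), P w) → ∀ᵐ w ∂(bm G ν), P (ow A q w)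

/-- SHM (EASY) the shift preserves the product measure. PROOF. Measure.eq_infinitePi for the measure
map (sh g) (bm G ν): the preimage of the box over I with sides t i is the box over I * g (image under
· * g, injective) with sides t (h g⁻¹); all factors are equal to ν (t i). Or
Measure.infinitePi_map_piCongrLeft with the equivalence Equiv.mulRight. -/
def S_SHM : Prop := ∀ (G K : Type) [Group G] [MeasurableSpace K]
  (ν : Measure K) [IsProbabilityMeasure ν] (g : G), Measure.map (sh g) (bm G ν) = bm G ν

/-! ## 2. The cocycle -/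

/-- LOC (EASY) the coordinate g of φ x depends on the coordinates in W g only. PROOF. φ x g = (sh g (φ x)) 1
(one_mul) = φ (sh g x) 1, and (sh g x) h = x (h * g). -/
def S_LOC : Prop := ∀ (G L K : Type) [Group G] [MeasurableSpace L] [MeasurableSpace K]
  (lam : Measure L) (kap : Measure K) (W : Finset G) (φ : (G → L) → (G → K)) (ψ : (G → K) → (G → L)),
  Iso lam kap W φ ψ → ∀ (x y : G → L) (g : G), (∀ h ∈ W, x (h * g) = y (h * g)) → φ x g = φ y g

/-- PP (EASY) ψ sends null sets to null sets backwards, and φ ψ = id almost everywhere. PROOF. First: let Z be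
the measurable hull of {x | ¬ P x}; bm G kap (ψ⁻¹ Z) = bm G lam (φ⁻¹ (ψ⁻¹ Z)) (mp and Measure.map_apply) and
φ⁻¹ (ψ⁻¹ Z) equals Z almost everywhere by inv. Second: the set {w | φ (ψ w) = w} is the countable
intersection over g of the sets {w | φ (ψ w) g = w g}, which are measurable (K countable with measurable
points: measurableSet_eq_fun' or the union over k of the sets where both are k); ae_map_iff reduces the
claim to: φ (ψ (φ x)) = φ x for almost every x, which follows from inv. Third: measure of ψ⁻¹ C. -/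
def S_PP : Prop := ∀ (G L K : Type) [Group G] [Countable G] [Countable L] [Countable K]
  [MeasurableSpace L] [MeasurableSingletonClass L] [MeasurableSpace K] [MeasurableSingletonClass K]
  (lam : Measure L) (kap : Measure K) [IsProbabilityMeasure lam] [IsProbabilityMeasure kap]
  (W : Finset G) (φ : (G → L) → (G → K)) (ψ : (G → K) → (G → L)), Iso lam kap W φ ψ →
  (∀ P : (G → L) → Prop, (∀ᵐ x ∂(bm G lam), P x) → ∀ᵐ w ∂(bm G kap), P (ψ w)) ∧
  (∀ᵐ w ∂(bm G kap), φ (ψ w) = w) ∧
  (∀ C : Set (G → L), MeasurableSet C → bm G kap (ψ ⁻¹' C) = bm G lam C)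

/-- CO1 (MEDIUM) comparison of cylinder sets. Here E contains A and all h * g with h ∈ W, g ∈ W⁻¹ * A.
PROOF. Put A' = W⁻¹ * A, p = φ x, q = φ y, μ = bm G lam, ν = bm G kap, C and C' the two cylinder sets (finite
intersections of measurable sets), τ z = ow A y z.
(a) If z, z' agree outside A then φ z, φ z' agree outside A' (S_LOC: if g ∉ A' and h ∈ W then h * g ∉ A,
otherwise g = h⁻¹ (h g) ∈ A'). If z ∈ C then φ z = p on A' (S_LOC), and τ z ∈ C' (on A it is y, outside A it is
z = x = y), hence φ (τ z) = q on A' and φ (τ z) = φ z outside A': φ (τ z) = ow A' q (φ z).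
(b) μ C = ν (ψ⁻¹ C) (S_PP) = ν (ψ⁻¹ C ∩ {w = p on A'}) because for almost every w in ψ⁻¹ C we have
w = φ (ψ w) = p on A' (measure_congr), and by S_R this is (∏_{A'} kap {p g}) * ν {w | ψ (ow A' p w) ∈ C}.
In the same way μ C' = (∏_{A'} kap {q g}) * ν {w | ψ (ow A' q w) ∈ C'}.
(c) ν {w | ψ (ow A' p w) ∈ C} ≤ ν {w | ψ (ow A' q w) ∈ C'} (measure_mono_ae): for almost every w we have
φ (ψ (ow A' p w)) = ow A' p w (S_PP and S_N) and ψ (φ (τ (ψ (ow A' p w)))) = τ (ψ (ow A' p w)) (inv, then S_N
for μ, then S_PP first part, then S_N for ν). For such a w, if z = ψ (ow A' p w) ∈ C then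
ow A' q w = ow A' q (ow A' p w) = ow A' q (φ z) = φ (τ z) by (a), so ψ (ow A' q w) = τ z ∈ C'.
(d) Multiply. -/
def S_CO1 : Prop := ∀ (G L K : Type) [Group G] [Countable G] [Countable L] [Countable K]
  [MeasurableSpace L] [MeasurableSingletonClass L] [MeasurableSpace K] [MeasurableSingletonClass K]
  (lam : Measure L) (kap : Measure K) [IsProbabilityMeasure lam] [IsProbabilityMeasure kap]
  (W : Finset G) (φ : (G → L) → (G → K)) (ψ : (G → K) → (G → L)), Iso lam kap W φ ψ →
  ∀ (A E : Finset G) (x y : G → L), (∀ g, g ∉ A → x g = y g) → A ⊆ E → W * (W⁻¹ * A) ⊆ E →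
  bm G lam {z | ∀ g ∈ E, z g = x g} * (∏ g ∈ W⁻¹ * A, kap {φ y g}) ≤
    bm G lam {z | ∀ g ∈ E, z g = y g} * (∏ g ∈ W⁻¹ * A, kap {φ x g})

/-- CO (EASY-MEDIUM) the cocycle equation in logarithmic form. PROOF. Take E = A ∪ W * (W⁻¹ * A). By
S_R with S = univ (or Measure.infinitePi_pi) the cylinder sets have measure ∏_{g ∈ E} lam {x g} and
∏_{g ∈ E} lam {y g}. S_CO1 for (x, y) and for (y, x) gives the equality
(∏_E lam {x g}) (∏_{A'} kap {φ y g}) = (∏_E lam {y g}) (∏_{A'} kap {φ x g}). Take toReal
(ENNReal.toReal_mul, ENNReal.toReal_prod) and Real.log (Real.log_mul, Real.log_prod; all factors positive):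
∑_E log lam(x g) + ∑_{A'} log kap(φ y g) = ∑_E log lam(y g) + ∑_{A'} log kap(φ x g); on E \ A the terms of
the two sums over E agree. -/
def S_CO : Prop := ∀ (G L K : Type) [Group G] [Countable G] [Countable L] [Countable K]
  [MeasurableSpace L] [MeasurableSingletonClass L] [MeasurableSpace K] [MeasurableSingletonClass K]
  (lam : Measure L) (kap : Measure K) [IsProbabilityMeasure lam] [IsProbabilityMeasure kap]
  (W : Finset G) (φ : (G → L) → (G → K)) (ψ : (G → K) → (G → L)), Iso lam kap W φ ψ →
  ∀ (A : Finset G) (x y : G → L), (∀ g, g ∉ A → x g = y g) →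
  ∑ g ∈ W⁻¹ * A, (Real.log (kap.real {φ x g}) - Real.log (kap.real {φ y g})) =
    ∑ g ∈ A, (Real.log (lam.real {x g}) - Real.log (lam.real {y g}))

/-! ## 3. The combinatorial lemma -/

/-- M1 (EASY-MEDIUM) Moebius inversion over subsets. PROOF. Strong induction on the number of elements
(Finset.strongInductionOn): define F E = f E - ∑_{D ⊂ E} F D by well founded recursion, or give the formula
F E = ∑_{D ⊆ E} (-1)^(|E| - |D|) f D (Finset.sum_powerset_neg_one_pow_card..., or
Mathlib: Finset.Powerset inversion). Any proof will do: only the existence of F is needed. -/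
def S_M1 : Prop := ∀ (G : Type) (f : Finset G → ℝ), ∃ F : Finset G → ℝ, ∀ E : Finset G,
  f E = ∑ D ∈ E.powerset, F D

/-- M2 (EASY) uniqueness. PROOF. Strong induction on B: the sum over the powerset of B is T B plus the sum
over the proper subsets, which are all zero. -/
def S_M2 : Prop := ∀ (G : Type) (T : Finset G → ℝ), (∀ A : Finset G, ∑ B ∈ A.powerset, T B = 0) →
  ∀ B : Finset G, T B = 0

/-- CM (MEDIUM) the combinatorial lemma. PROOF. Write A g for A.image (· * g). Take F from S_M1 and let
𝒟 = W.powerset.erase ∅. For finite sets D ≠ ∅, D ⊆ W, and B the number n(D, B) of g with D g = B is the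
number of g ∈ W⁻¹ * B with D g = B (if d ∈ D then g = d⁻¹ (d g)). Put
T B = ∑_{D ∈ 𝒟} F D * n(D, B). For every A: f (A g⁻¹) - f ∅ = f (A g⁻¹ ∩ W) - f ∅ = ∑_{D ∈ 𝒟, D ⊆ A g⁻¹} F D
(S_M1), and D ⊆ A g⁻¹ iff D g ⊆ A. So the hypothesis says
∑_{D ∈ 𝒟} F D * #{g ∈ W⁻¹ * A | D g ⊆ A} = 0, and #{g ∈ W⁻¹ * A | D g ⊆ A} = ∑_{B ⊆ A} n(D, B) (sort by the
value B = D g; Finset.card_eq_sum_card_fiberwise, and W⁻¹ * B ⊆ W⁻¹ * A), so ∑_{B ⊆ A} T B = 0 for every A.
By S_M2 T = 0. For D ∈ 𝒟 put N(D) = #{g ∈ W⁻¹ * W | D g ⊆ W}; N(D) ≥ 1 (g = 1), N(D) = ∑_{B ⊆ W} n(D, B),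
and if n(D, B) ≠ 0, i.e. B = D h, then N(B) = N(D) (g ↦ h g is a bijection between {g | B g ⊆ W} and
{g | D g ⊆ W}; both sets lie in W⁻¹ * W because B, D ⊆ W are not empty). So
f W - f ∅ = ∑_{D ∈ 𝒟} F D = ∑_{D ∈ 𝒟} F D * (∑_{B ∈ 𝒟} n(D, B)) / N(D)
= ∑_{B ∈ 𝒟} (1 / N(B)) ∑_{D ∈ 𝒟} F D * n(D, B) = ∑_{B ∈ 𝒟} T B / N(B) = 0 (n(D, ∅) = 0 for D ≠ ∅). -/
def S_CM : Prop := ∀ (G : Type) [Group G] (W : Finset G) (f : Finset G → ℝ),
  (∀ E : Finset G, f E = f (E ∩ W)) →
  (∀ A : Finset G, ∑ g ∈ W⁻¹ * A, (f (A.image (fun a => a * g⁻¹)) - f ∅) = 0) → f W = f ∅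

/-! ## 4. Invariant measures -/

/-- IV (MEDIUM) the potential has the same integral for all invariant measures. PROOF. Write
c for fun _ => b, u z = log kap(φ z 1) - log lam(z 1) (bounded and measurable: L, K finite, so
integrable composed with any measurable map), f E = ∫ u (ow E x c) dm(x). Apply S_CM to f.
First hypothesis: ow E x c and ow (E ∩ W) x c agree on W, so by loc and 1 ∈ W the values of u agree.
Second: for g ∈ G, f (A g⁻¹) = ∫ u (ow (A g⁻¹) (sh g x) c) dm(x) by invariance (integral_map), and
ow (A g⁻¹) (sh g x) c = sh g (ow A x c) (h ∈ A g⁻¹ iff h g ∈ A), so the integrand is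
log kap(φ (ow A x c) g) - log lam((ow A x c) g) (eq; (sh g z) 1 = z g). Also
f ∅ = log kap(φ c g) - log lam(b) for every g (ow ∅ x c = c = sh g c, m a probability measure). Sum over
g ∈ W⁻¹ * A and put the finite sum into the integral: by S_CO for (ow A x c, c) the sum of the first differences
is ∑_{g ∈ A} (log lam(x g) - log lam(b)), and the sum of the second ones is the same, because A ⊆ W⁻¹ * A
(1 ∈ W) and (ow A x c) g = b for g ∉ A. So the sum is 0. Conclusion: f W = f ∅, where
f W = ∫ u dm (ow W x c agrees with x on W, loc) and f ∅ = u c. -/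
def S_IV : Prop := ∀ (G L K : Type) [Group G] [Countable G] [Fintype L] [Fintype K]
  [MeasurableSpace L] [MeasurableSingletonClass L] [MeasurableSpace K] [MeasurableSingletonClass K]
  (lam : Measure L) (kap : Measure K) [IsProbabilityMeasure lam] [IsProbabilityMeasure kap]
  (W : Finset G) (φ : (G → L) → (G → K)) (ψ : (G → K) → (G → L)), Iso lam kap W φ ψ →
  ∀ (m : Measure (G → L)) [IsProbabilityMeasure m], (∀ g : G, Measure.map (sh g) m = m) → ∀ b : L,
  ∫ x, (Real.log (kap.real {φ x 1}) - Real.log (lam.real {x 1})) ∂m =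
    Real.log (kap.real {φ (fun _ => b) 1}) - Real.log (lam.real {b})

/-- HE (EASY-MEDIUM) the integral for the product measure. PROOF. The law of x 1 is lam
(Measure.infinitePi_map_eval or measurePreserving_eval_infinitePi), so ∫ log lam(x 1) = ∑_a lam(a) log lam(a)
(integral_map, integral_fintype) = - ent lam. The law of φ x is bm G kap (mp), so the law of
φ x 1 is kap, and ∫ log kap(φ x 1) = - ent kap. -/
def S_HE : Prop := ∀ (G L K : Type) [Group G] [Fintype L] [Fintype K]
  [MeasurableSpace L] [MeasurableSingletonClass L] [MeasurableSpace K] [MeasurableSingletonClass K]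
  (lam : Measure L) (kap : Measure K) [IsProbabilityMeasure lam] [IsProbabilityMeasure kap]
  (W : Finset G) (φ : (G → L) → (G → K)) (ψ : (G → K) → (G → L)), Iso lam kap W φ ψ →
  ∫ x, (Real.log (kap.real {φ x 1}) - Real.log (lam.real {x 1})) ∂(bm G lam) = ent lam - ent kap

/-- CORE (EASY). PROOF. S_IV for m = bm G lam (invariant by S_SHM) with b = a and S_HE:
log kap(φ (fun _ => a) 1) - log lam(a) = ent lam - ent kap. Exponentiate (both masses are positive). -/
def S_CORE : Prop := ∀ (G L K : Type) [Group G] [Countable G] [Fintype L] [Fintype K]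
  [MeasurableSpace L] [MeasurableSingletonClass L] [MeasurableSpace K] [MeasurableSingletonClass K]
  (lam : Measure L) (kap : Measure K) [IsProbabilityMeasure lam] [IsProbabilityMeasure kap]
  (W : Finset G) (φ : (G → L) → (G → K)) (ψ : (G → K) → (G → L)), Iso lam kap W φ ψ →
  ∀ a : L, kap.real {φ (fun _ => a) 1} = Real.exp (ent lam - ent kap) * lam.real {a}

/-! ## 5. Partitions -/

/-- The partition α is generating (as in the frozen statement). -/
def Gen {G L K : Type} [Group G] [MeasurableSpace L] (μ : Measure (G → L)) (α : (G → L) → K) : Prop :=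
  ∀ B : Set (G → L), MeasurableSet B → ∃ A : Set (G → L),
    MeasurableSet[⨆ g : G, MeasurableSpace.comap (fun x : G → L => α (sh g x)) ⊤] A ∧
      μ (symmDiff A B) = 0

/-- MP (EASY-MEDIUM) independent translates. PROOF. ProbabilityTheory.iIndepFun_iff_map_fun_eq_infinitePi_map (the
functions x ↦ α (sh g x) are measurable): the law of the family is the product of the laws
map (fun x => α (sh g x)) μ = map α (map (sh g) μ) = map α μ by S_SHM. -/
def S_MP : Prop := ∀ (G L K : Type) [Group G] [Countable G]
  [MeasurableSpace L] [MeasurableSpace K] (lam : Measure L) [IsProbabilityMeasure lam]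
  (α : (G → L) → K), Measurable α →
  ProbabilityTheory.iIndepFun (fun (g : G) (x : G → L) => α (sh g x)) (bm G lam) →
  Measure.map (fun (x : G → L) (g : G) => α (sh g x)) (bm G lam) = bm G (Measure.map α (bm G lam))

/-- DEC (MEDIUM) the decoder of a generating partition. PROOF. Put Φ x = fun g => α (sh g x), measurable. For each
letter a let B_a = {x | x 1 = a}; Gen gives A_a measurable for the join of the sigma-algebras
comap (fun x => α (sh g x)) ⊤ with μ(A_a Δ B_a) = 0. This join is comap Φ MeasurableSpace.pi, because the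
sigma-algebra of K (countable, measurable points) is ⊤, pi is the join of the comaps of the evaluations
(MeasurableSpace.pi, comap_iSup, comap_comp), so A_a = Φ⁻¹ D_a with D_a measurable. Define
δ y = the a with y ∈ D_a if there is exactly one such a, and a fixed letter otherwise (L is finite, a
Boolean combination of the D_a: measurable; or: choose by induction over a list of the letters with
Measurable.ite). For almost every x: x ∈ A_a iff x 1 = a for all a, so δ (Φ x) = x 1. Put
ψ y = fun g => δ (sh g y). For almost every x and all g (G countable, S_SHM):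
ψ (Φ x) g = δ (sh g (Φ x)) = δ (Φ (sh g x)) = (sh g x) 1 = x g. -/
def S_DEC : Prop := ∀ (G L K : Type) [Group G] [Countable G] [Fintype L] [Fintype K]
  [MeasurableSpace L] [MeasurableSingletonClass L] [MeasurableSpace K] [MeasurableSingletonClass K]
  (lam : Measure L) [IsProbabilityMeasure lam] (α : (G → L) → K), Measurable α → Gen (bm G lam) α →
  ∃ ψ : (G → K) → (G → L), Measurable ψ ∧
    ∀ᵐ x ∂(bm G lam), ψ (fun g => α (sh g x)) = x

/-- IE (EASY-MEDIUM) an encoder with a finite window. PROOF. Take W' = insert 1 W, φ x = fun g => α (sh g x), ψ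
from S_DEC, kap = map α μ. pk: Measure.map_apply. eq: sh h (sh g x) = sh (h * g) x (mul_assoc). mp: S_MP. loc:
φ x 1 = α (sh 1 x) = α x. -/
def S_IE : Prop := ∀ (G L K : Type) [Group G] [Countable G] [Fintype L] [Fintype K]
  [MeasurableSpace L] [MeasurableSingletonClass L] [MeasurableSpace K] [MeasurableSingletonClass K]
  (lam : Measure L) [IsProbabilityMeasure lam] (α : (G → L) → K), (∀ a, lam {a} ≠ 0) → Measurable α →
  (∀ k, bm G lam (α ⁻¹' {k}) ≠ 0) →
  ProbabilityTheory.iIndepFun (fun (g : G) (x : G → L) => α (sh g x)) (bm G lam) → Gen (bm G lam) α →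
  (∃ W : Finset G, ∀ x y : G → L, (∀ g ∈ W, x g = y g) → α x = α y) →
  ∃ (W : Finset G) (ψ : (G → K) → (G → L)),
    Iso lam (Measure.map α (bm G lam)) W (fun x g => α (sh g x)) ψ

/-- ID (MEDIUM) a decoder with a finite window. PROOF. Take W' = insert 1 V, Φ x = fun g => α (sh g x),
ψ y = fun g => δ (sh g y); the isomorphism goes from the shift over kap = map α μ to the shift over lam.
ψ is measurable: δ depends only on the coordinates in V, so it factors through the restriction to the finite
set V → K, which is finite with measurable points (measurable_of_countable / measurable_of_finite); the shift is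
measurable. eq: sh h (sh g y) = sh (h * g) y. For almost every x and all g (countable, S_SHM):
ψ (Φ x) g = δ (sh g (Φ x)) = δ (Φ (sh g x)) = (sh g x) 1 = x g, so ψ (Φ x) = x. mp:
map ψ (bm G kap) = map ψ (map Φ μ) (S_MP) = map (ψ ∘ Φ) μ = μ (Measure.map_congr). inv: Φ (ψ y) = y for almost
every y: the set of these y is measurable (countable intersection over g, K finite with measurable points),
ae_map_iff, and Φ (ψ (Φ x)) = Φ x. loc: ψ y 1 = δ (sh 1 y) = δ y. -/
def S_ID : Prop := ∀ (G L K : Type) [Group G] [Countable G] [Fintype L] [Fintype K]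
  [MeasurableSpace L] [MeasurableSingletonClass L] [MeasurableSpace K] [MeasurableSingletonClass K]
  (lam : Measure L) [IsProbabilityMeasure lam] (α : (G → L) → K), (∀ a, lam {a} ≠ 0) → Measurable α →
  (∀ k, bm G lam (α ⁻¹' {k}) ≠ 0) →
  ProbabilityTheory.iIndepFun (fun (g : G) (x : G → L) => α (sh g x)) (bm G lam) →
  ∀ (V : Finset G) (δ : (G → K) → L), (∀ y z : G → K, (∀ g ∈ V, y g = z g) → δ y = δ z) →
  (∀ᵐ x ∂(bm G lam), δ (fun g => α (sh g x)) = x 1) →
  ∃ W : Finset G, Iso (Measure.map α (bm G lam)) lam W (fun (y : G → K) g => δ (sh g y))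
    (fun (x : G → L) g => α (sh g x))

/-! ## 6. Numbers -/

/-- NE (EASY) different letter probabilities. PROOF. Put t = exp(H(p) - H(q)). a ↦ d a is injective:
q (d a) = q (d b) gives t p a = t p b. So t = ∑_a t p a = ∑_a q (d a) ≤ ∑_k q k = 1
(Finset.sum_image / sum_le_sum_of_subset), hence H(p) - H(q) ≤ 0. -/
def S_NE : Prop := ∀ (L K : Type) [Fintype L] [Fintype K] (p : L → ℝ) (q : K → ℝ) (d : L → K),
  (∀ a, 0 < p a) → (∀ k, 0 < q k) → ∑ a, p a = 1 → ∑ k, q k = 1 →
  (∀ a, q (d a) = Real.exp (∑ b, Real.negMulLog (p b) - ∑ k, Real.negMulLog (q k)) * p a) →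
  Function.Injective p → ∑ b, Real.negMulLog (p b) ≤ ∑ k, Real.negMulLog (q k)

/-- ND (EASY-MEDIUM) two letters. PROOF. Put H = ∑_b negMulLog (p b), H' = ∑_k negMulLog (q k),
t = exp(H' - H), so p (d k) = t q k. If d is surjective then t = ∑_k t q k = ∑_k p (d k) ≥ ∑_a p a = 1, so
H' ≥ H. Otherwise d is constant (L has two elements), d k = a for all k, so all q k are equal to
p a / t, hence to 1 / |K|, H' = log |K| and p a = t / |K| = exp(-H) (K is not empty, its masses sum to 1). With p b the
other mass, p b = 1 - p a: H = - p a log (p a) - p b log (p b) and H = - log (p a) give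
(1 - p a) log (p a) = p b log (p b), so log (p a) = log (p b), p a = p b = 1/2, H = log 2. Since |K| ≥ 2 by
hypothesis, H' = log |K| ≥ log 2 = H. -/
def S_ND : Prop := ∀ (L K : Type) [Fintype L] [Fintype K] (p : L → ℝ) (q : K → ℝ) (d : K → L),
  (∀ a, 0 < p a) → (∀ k, 0 < q k) → ∑ a, p a = 1 → ∑ k, q k = 1 →
  (∀ k, p (d k) = Real.exp (∑ l, Real.negMulLog (q l) - ∑ b, Real.negMulLog (p b)) * q k) →
  Fintype.card L = 2 → 2 ≤ Fintype.card K →
  ∑ b, Real.negMulLog (p b) ≤ ∑ k, Real.negMulLog (q k)

/-- K2 (EASY) the partition is not trivial. PROOF. If K has at most one element (Subsingleton) then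
fun g => α (sh g x) does not depend on x, so x 1 is almost surely equal to a fixed letter l; L has a letter
a ≠ l (card L = 2), and {x | x 1 = a} has measure lam {a} ≠ 0 (measurePreserving_eval_infinitePi). -/
def S_K2 : Prop := ∀ (G L K : Type) [Group G] [Countable G] [Fintype L] [Fintype K]
  [MeasurableSpace L] [MeasurableSingletonClass L] [MeasurableSpace K] [MeasurableSingletonClass K]
  (lam : Measure L) [IsProbabilityMeasure lam] (α : (G → L) → K), (∀ a, lam {a} ≠ 0) →
  (∀ k, bm G lam (α ⁻¹' {k}) ≠ 0) → ∀ δ : (G → K) → L,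
  (∀ᵐ x ∂(bm G lam), δ (fun g => α (sh g x)) = x 1) → Fintype.card L = 2 → 2 ≤ Fintype.card K

/-- FIN (EASY) assembly. PROOF. kap = map α μ is a probability measure with kap.real {k} =
μ.real (α⁻¹{k}) (map_measureReal_apply). First part: S_IE, S_CORE, and S_NE with p a = lam.real {a}, q k =
kap.real {k}, d a = α (fun _ => a) (φ (fun _ => a) 1 = α (sh 1 (fun _ => a)) = α (fun _ => a)); p is
injective because lam.real {a} = lam.real {b} gives lam {a} = lam {b} (finite measures). The sums of the masses
are 1: sum_measureReal_singleton (Finset.univ), probReal_univ. Second part: S_ID, S_CORE with exchanged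
roles, S_ND, S_K2. -/
def S_FIN : Prop := ∀ (G L K : Type) [Group G] [Countable G] [Fintype L] [Fintype K]
  [MeasurableSpace L] [MeasurableSingletonClass L] [MeasurableSpace K] [MeasurableSingletonClass K]
  (lam : Measure L) [IsProbabilityMeasure lam] (α : (G → L) → K), (∀ a, lam {a} ≠ 0) → Measurable α →
  (∀ k, bm G lam (α ⁻¹' {k}) ≠ 0) →
  ProbabilityTheory.iIndepFun (fun (g : G) (x : G → L) => α (sh g x)) (bm G lam) →
  (Gen (bm G lam) α → (∃ W : Finset G, ∀ x y : G → L, (∀ g ∈ W, x g = y g) → α x = α y) →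
    (∀ a : L, (bm G lam).real (α ⁻¹' {α fun _ => a}) =
      Real.exp (ent lam - ∑ k, Real.negMulLog ((bm G lam).real (α ⁻¹' {k}))) * lam.real {a}) ∧
    ((∀ a b : L, lam {a} = lam {b} → a = b) →
      ent lam ≤ ∑ k, Real.negMulLog ((bm G lam).real (α ⁻¹' {k})))) ∧
  (∀ (V : Finset G) (δ : (G → K) → L), (∀ y z : G → K, (∀ g ∈ V, y g = z g) → δ y = δ z) →
    (∀ᵐ x ∂(bm G lam), δ (fun g => α (sh g x)) = x 1) →
    (∀ k : K, lam.real {δ fun _ => k} =
      Real.exp (∑ k, Real.negMulLog ((bm G lam).real (α ⁻¹' {k})) - ent lam) *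
        (bm G lam).real (α ⁻¹' {k})) ∧
    (Fintype.card L = 2 → ent lam ≤ ∑ k, Real.negMulLog ((bm G lam).real (α ⁻¹' {k}))))

end Pool.Agent.Work.MP_574bbd_an.OB
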