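import Mathlib
import Pool.Agent.Work.MP_574bbd_an.OB.Stmts

set_option autoImplicit false

namespace Pool.Agent.Work.MP_574bbd_an.OB

open MeasureTheory
open scoped Pointwise Classical

theorem pr_CORE (hshm : S_SHM) (hiv : S_IV) (hhe : S_HE) : S_CORE := by
  intro G L K _ _ _ _ _ _ _ _ lam kap _ _ W φ ψ I a
  have : IsProbabilityMeasure (bm G lam) := by unfold bm; infer_instance
  have h1 := hiv G L K lam kap W φ ψ I (bm G lam) (fun g => hshm G L lam g) a
  have h2 := hhe G L K lam kap W φ ψ I
  rw [h2] at h1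
  have hk : 0 < kap.real {φ (fun _ => a) 1} :=
    ENNReal.toReal_pos (I.pk _) (measure_ne_top _ _)
  have hl : 0 < lam.real {a} :=
    ENNReal.toReal_pos (I.pl _) (measure_ne_top _ _)
  have h3 : Real.log (kap.real {φ (fun _ => a) 1})
      = (ent lam - ent kap) + Real.log (lam.real {a}) := by linarith
  calc kap.real {φ (fun _ => a) 1} = Real.exp (Real.log (kap.real {φ (fun _ => a) 1})) :=
        (Real.exp_log hk).symm
    _ = Real.exp (ent lam - ent kap) * lam.real {a} := by
        rw [h3, Real.exp_add, Real.exp_log hl]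

end Pool.Agent.Work.MP_574bbd_an.OB
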