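import Pool.Agent.Work.MP_574bbd_an.OB.Stmts

/-! Item DEC of block OB: the decoder of a generating partition. -/

set_option autoImplicit false

namespace Pool.Agent.Work.MP_574bbd_an.OB

open MeasureTheory
open scoped Pointwise Classical

/-- A measurable choice of the letter: disjoint pieces. -/
theorem DEC_letter {Y L : Type} [MeasurableSpace Y] [Countable L] [MeasurableSpace L]
    [MeasurableSingletonClass L] (a0 : L) (D : L → Set Y) (hD : ∀ a, MeasurableSet (D a)) :
    ∃ δ : Y → L, Measurable δ ∧ ∀ (a : L) (y : Y), (y ∈ D a ∧ ∀ b, b ≠ a → y ∉ D b) → δ y = a := by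
  let E : L → Set Y := fun a => D a ∩ ⋂ b, ⋂ (_ : b ≠ a), (D b)ᶜ
  have hE : ∀ a, MeasurableSet (E a) := fun a =>
    (hD a).inter (MeasurableSet.iInter fun b => MeasurableSet.iInter fun _ => (hD b).compl)
  have hEm : ∀ a y, y ∈ E a ↔ (y ∈ D a ∧ ∀ b, b ≠ a → y ∉ D b) := by
    intro a y
    simp [E]
  let δ : Y → L := fun y => if h : ∃ a, y ∈ E a then h.choose else a0
  have h1 : ∀ a y, y ∈ E a → δ y = a := by
    intro a y hy
    have h : ∃ a, y ∈ E a := ⟨a, hy⟩
    have hs := h.choose_spec
    have e : δ y = h.choose := dif_pos h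
    rw [e]
    by_contra hne
    exact ((hEm _ _).1 hy).2 _ hne ((hEm _ _).1 hs).1
  have h2 : ∀ y, (∀ a, y ∉ E a) → δ y = a0 := by
    intro y hy
    exact dif_neg (by push Not; exact hy)
  refine ⟨δ, ?_, fun a y h => h1 a y ((hEm a y).2 h)⟩
  apply measurable_to_countable'
  intro a
  by_cases ha : a = a0
  · have : δ ⁻¹' {a} = (⋃ b, ⋃ (_ : b ≠ a0), E b)ᶜ := by
      ext y
      simp only [Set.mem_preimage, Set.mem_singleton_iff, Set.mem_compl_iff, Set.mem_iUnion,
        not_exists]
      constructor
      · intro h b hb hy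
        rw [h1 b y hy] at h
        exact hb (h.trans ha)
      · intro h
        by_cases h0 : y ∈ E a0
        · rw [h1 a0 y h0, ha]
        · rw [ha]
          apply h2
          intro b
          by_cases hb : b = a0
          · rw [hb]; exact h0
          · exact h b hb
    rw [this]
    exact (MeasurableSet.iUnion fun b => MeasurableSet.iUnion fun _ => hE b).compl
  · have : δ ⁻¹' {a} = E a := by
      ext y
      simp only [Set.mem_preimage, Set.mem_singleton_iff]
      constructor
      · intro h
        by_contra hy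
        by_cases hex : ∃ b, y ∈ E b
        · obtain ⟨b, hb⟩ := hex
          have := h1 b y hb
          rw [h] at this
          rw [this] at hy
          exact hy hb
        · push Not at hex
          exact ha (h.symm.trans (h2 y hex))
      · exact h1 a y
    rw [this]
    exact hE a

theorem pr_DEC (hSHM : S_SHM) : S_DEC := by
  intro G L K _ _ _ _ _ _ _ _ lam _ α hα hgen
  have hLne : Nonempty L := by
    by_contra hL
    rw [not_nonempty_iff] at hL
    have h1 : lam Set.univ = 1 := measure_univ
    have h2 : (Set.univ : Set L) = ∅ := Set.eq_empty_of_isEmpty _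
    rw [h2, measure_empty] at h1
    exact zero_ne_one h1
  obtain ⟨a0⟩ := hLne
  have hsh : ∀ g : G, Measurable (fun x : G → L => sh g x) := fun g =>
    measurable_pi_lambda _ (fun h => measurable_pi_apply (h * g))
  have hshK : ∀ g : G, Measurable (fun x : G → K => sh g x) := fun g =>
    measurable_pi_lambda _ (fun h => measurable_pi_apply (h * g))
  let Φ : (G → L) → (G → K) := fun x g => α (sh g x)
  have hle : (⨆ g : G, MeasurableSpace.comap (fun x : G → L => α (sh g x)) ⊤) ≤
      MeasurableSpace.comap Φ MeasurableSpace.pi := by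
    apply iSup_le
    intro g s hs
    obtain ⟨t, -, rfl⟩ := hs
    refine ⟨(fun y : G → K => y g) ⁻¹' t, ?_, rfl⟩
    exact measurable_pi_apply g (Set.Finite.measurableSet (Set.toFinite t))
  have hD : ∀ a : L, ∃ D : Set (G → K), MeasurableSet D ∧
      ∀ᵐ x ∂(bm G lam), (Φ x ∈ D ↔ x 1 = a) := by
    intro a
    obtain ⟨A, hA, hAB⟩ := hgen ((fun x : G → L => x 1) ⁻¹' {a})
      (measurable_pi_apply 1 (measurableSet_singleton a))
    obtain ⟨D, hD, hDA⟩ := hle A hA
    refine ⟨D, hD, ?_⟩
    rw [measure_symmDiff_eq_zero_iff] at hAB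
    filter_upwards [hAB.mem_iff] with x hx
    rw [← hDA] at hx
    exact hx
  choose D hDm hDa using hD
  obtain ⟨δ, hδ, hδ2⟩ := DEC_letter a0 D hDm
  have hP : ∀ᵐ x ∂(bm G lam), δ (Φ x) = x 1 := by
    filter_upwards [ae_all_iff.2 hDa] with x hx
    apply hδ2
    refine ⟨(hx (x 1)).2 rfl, ?_⟩
    intro b hb hmem
    exact hb ((hx b).1 hmem).symm
  have hPg : ∀ g : G, ∀ᵐ x ∂(bm G lam), δ (Φ (sh g x)) = (sh g x) 1 := by
    intro g
    apply ae_of_ae_map (hsh g).aemeasurable (p := fun x => δ (Φ x) = x 1)
    have := hSHM G L lam g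
    rw [show (fun x : G → L => sh g x) = sh g from rfl, this]
    exact hP
  refine ⟨fun y g => δ (sh g y), ?_, ?_⟩
  · exact measurable_pi_lambda _ (fun g => hδ.comp (hshK g))
  · filter_upwards [ae_all_iff.2 hPg] with x hx
    funext g
    have e1 : sh g (fun h => α (sh h x)) = Φ (sh g x) := by
      funext h
      have : sh h (sh g x) = sh (h * g) x := by
        funext k
        simp [sh, mul_assoc]
      simp only [Φ]
      rw [this]
      rfl
    have e2 : (sh g x) 1 = x g := by simp [sh]
    change δ (sh g (fun h => α (sh h x))) = x g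
    rw [e1, hx g, e2]

end Pool.Agent.Work.MP_574bbd_an.OB
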