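import Pool.Agent.Work.MP_574bbd_an.OB.Stmts

/-! # MP_574bbd_an, block OB, item FIN: assembly -/

set_option autoImplicit false

namespace Pool.Agent.Work.MP_574bbd_an.OB

open MeasureTheory
open scoped Pointwise Classical

theorem FIN_prob (G : Type) {L : Type} [MeasurableSpace L] (ν : Measure L)
    [IsProbabilityMeasure ν] : IsProbabilityMeasure (bm G ν) := by
  unfold bm
  infer_instance

theorem FIN_sum {L : Type} [Fintype L] [MeasurableSpace L] [MeasurableSingletonClass L]
    (ν : Measure L) [IsProbabilityMeasure ν] : ∑ a, ν.real {a} = 1 := by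
  have h := sum_measureReal_singleton (μ := ν) (Finset.univ : Finset L)
  rw [Finset.coe_univ, probReal_univ] at h
  exact h

theorem FIN_pos {L : Type} [MeasurableSpace L] (ν : Measure L) [IsProbabilityMeasure ν]
    (a : L) (h : ν {a} ≠ 0) : 0 < ν.real {a} :=
  ENNReal.toReal_pos h (measure_ne_top _ _)

theorem pr_FIN (hIE : S_IE) (hID : S_ID) (hCORE : S_CORE) (hNE : S_NE) (hND : S_ND)
    (hK2 : S_K2) : S_FIN := by
  intro G L K _ _ _ _ _ _ _ _ lam _ α hl hα hk hind
  have hP : IsProbabilityMeasure (bm G lam) := FIN_prob G lam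
  have hQ : IsProbabilityMeasure (Measure.map α (bm G lam)) :=
    Measure.isProbabilityMeasure_map hα.aemeasurable
  have hreal : ∀ k : K, (Measure.map α (bm G lam)).real {k} = (bm G lam).real (α ⁻¹' {k}) :=
    fun k => map_measureReal_apply hα (measurableSet_singleton k)
  have hent : ent (Measure.map α (bm G lam)) =
      ∑ k, Real.negMulLog ((bm G lam).real (α ⁻¹' {k})) := by
    unfold ent
    exact Finset.sum_congr rfl fun k _ => by rw [hreal]
  have hp : ∀ a, 0 < lam.real {a} := fun a => FIN_pos lam a (hl a)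
  have hq : ∀ k, 0 < (bm G lam).real (α ⁻¹' {k}) := fun k =>
    ENNReal.toReal_pos (hk k) (measure_ne_top _ _)
  have hps : ∑ a, lam.real {a} = 1 := FIN_sum lam
  have hqs : ∑ k, (bm G lam).real (α ⁻¹' {k}) = 1 := by
    rw [← FIN_sum (Measure.map α (bm G lam))]
    exact Finset.sum_congr rfl fun k _ => (hreal k).symm
  refine ⟨?_, ?_⟩
  · intro hG hW
    obtain ⟨W, ψ, hI⟩ := hIE G L K lam α hl hα hk hind hG hW
    have hc := hCORE G L K lam (Measure.map α (bm G lam)) W (fun x g => α (sh g x)) ψ hI
    have h1 : ∀ a : L, (bm G lam).real (α ⁻¹' {α fun _ => a}) =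
        Real.exp (ent lam - ∑ k, Real.negMulLog ((bm G lam).real (α ⁻¹' {k}))) * lam.real {a} := by
      intro a
      have h2 := hc a
      rw [hreal, hent] at h2
      exact h2
    refine ⟨h1, ?_⟩
    intro hinj
    refine hNE L K (fun a => lam.real {a}) (fun k => (bm G lam).real (α ⁻¹' {k}))
      (fun a => α fun _ => a) hp hq hps hqs h1 ?_
    intro a b hab
    apply hinj
    exact (ENNReal.toReal_eq_toReal_iff' (measure_ne_top _ _) (measure_ne_top _ _)).mp hab
  · intro V δ hδ hae
    obtain ⟨W, hI⟩ := hID G L K lam α hl hα hk hind V δ hδ hae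
    have hc := hCORE G K L (Measure.map α (bm G lam)) lam W (fun y g => δ (sh g y))
      (fun x g => α (sh g x)) hI
    have h1 : ∀ k : K, lam.real {δ fun _ => k} =
        Real.exp (∑ k, Real.negMulLog ((bm G lam).real (α ⁻¹' {k})) - ent lam) *
          (bm G lam).real (α ⁻¹' {k}) := by
      intro k
      have h2 := hc k
      rw [hreal, hent] at h2
      exact h2
    refine ⟨h1, ?_⟩
    intro hcard
    have h2K := hK2 G L K lam α hl hk δ hae hcard
    exact hND L K (fun a => lam.real {a}) (fun k => (bm G lam).real (α ⁻¹' {k}))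
      (fun k => δ fun _ => k) hp hq hps hqs h1 hcard h2K

end Pool.Agent.Work.MP_574bbd_an.OB
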