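import Pool.Agent.Work.MP_574bbd_an.OB.Stmts

/-!
Block OB, item HE: the integral of the potential for the product measure.
-/

set_option autoImplicit false

namespace Pool.Agent.Work.MP_574bbd_an.OB

open MeasureTheory
open scoped Pointwise Classical

namespace IHE

/-- The integral of the logarithm of the mass along a map with law ν. -/
theorem int {Ω L : Type} [MeasurableSpace Ω] [Fintype L] [MeasurableSpace L]
    [MeasurableSingletonClass L] (μ : Measure Ω) [IsProbabilityMeasure μ] (ν : Measure L)
    [IsProbabilityMeasure ν] (f : Ω → L) (hf : MeasurePreserving f μ ν) :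
    Integrable (fun x => Real.log (ν.real {f x})) μ ∧
      ∫ x, Real.log (ν.real {f x}) ∂μ = - ent ν := by
  have hm : Measurable (fun a : L => Real.log (ν.real {a})) := measurable_of_finite _
  have hi : Integrable (fun a : L => Real.log (ν.real {a})) ν := Integrable.of_finite
  refine ⟨(hf.integrable_comp hm.aestronglyMeasurable).2 hi, ?_⟩
  have e1 : ∫ x, Real.log (ν.real {f x}) ∂μ = ∫ a, Real.log (ν.real {a}) ∂ν := by
    have e2 := integral_map (μ := μ) hf.measurable.aemeasurable
      (f := fun a : L => Real.log (ν.real {a})) hm.aestronglyMeasurable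
    rw [hf.map_eq] at e2
    exact e2.symm
  rw [e1, integral_fintype hi, ent, ← Finset.sum_neg_distrib]
  refine Finset.sum_congr rfl fun a _ => ?_
  rw [Real.negMulLog, smul_eq_mul]
  ring

end IHE

theorem pr_HE : S_HE := by
  intro G L K _ _ _ _ _ _ _ lam kap _ _ W φ ψ h
  have p0 : ∀ {M : Type} [MeasurableSpace M] (ν : Measure M) [IsProbabilityMeasure ν],
      MeasurePreserving (fun x : G → M => x 1) (bm G ν) ν := by
    intro M _ ν _
    exact measurePreserving_eval_infinitePi (fun _ : G => ν) 1
  have p1 := p0 lam
  have p2 : MeasurePreserving (fun x : G → L => φ x 1) (bm G lam) kap :=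
    (p0 kap).comp ⟨h.mφ, h.mp⟩
  have : IsProbabilityMeasure (bm G lam) := by
    unfold bm
    infer_instance
  obtain ⟨i1, e1⟩ := IHE.int (bm G lam) lam _ p1
  obtain ⟨i2, e2⟩ := IHE.int (bm G lam) kap _ p2
  rw [integral_sub i2 i1, e1, e2]
  ring

end Pool.Agent.Work.MP_574bbd_an.OB
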