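import Pool.Agent.Work.MP_574bbd_an.OB.Stmts

/-!
# MP_574bbd_an, block OB, item ID: a decoder with a finite window
-/

set_option autoImplicit false

namespace Pool.Agent.Work.MP_574bbd_an.OB

open MeasureTheory
open scoped Pointwise Classical

theorem ID_sh_meas {G L : Type} [Group G] [MeasurableSpace L] (g : G) :
    Measurable (sh g : (G → L) → (G → L)) :=
  measurable_pi_lambda _ fun h => measurable_pi_apply (h * g)

theorem ID_sh_sh {G L : Type} [Group G] (h g : G) (x : G → L) : sh h (sh g x) = sh (h * g) x := by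
  funext k
  show x (k * h * g) = x (k * (h * g))
  rw [mul_assoc]

theorem ID_delta_meas {G L K : Type} [Fintype K] [MeasurableSpace L] [MeasurableSpace K]
    [MeasurableSingletonClass K] (V : Finset G) (δ : (G → K) → L)
    (hδ : ∀ y z : G → K, (∀ g ∈ V, y g = z g) → δ y = δ z) : Measurable δ := by
  intro s _
  have hr : Measurable (fun (y : G → K) (g : {g // g ∈ V}) => y g.1) :=
    measurable_pi_lambda _ fun g => measurable_pi_apply g.1
  have h1 : δ ⁻¹' s = (fun (y : G → K) (g : {g // g ∈ V}) => y g.1) ⁻¹'
      ((fun (y : G → K) (g : {g // g ∈ V}) => y g.1) '' (δ ⁻¹' s)) := by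
    apply Set.Subset.antisymm
    · exact Set.subset_preimage_image _ _
    · rintro y ⟨z, hz, hzy⟩
      have h2 : δ y = δ z := by
        apply hδ
        intro g hg
        exact (congrFun hzy ⟨g, hg⟩).symm
      show δ y ∈ s
      rw [h2]
      exact hz
  rw [h1]
  exact hr (Set.toFinite _).measurableSet

theorem pr_ID (hMP : S_MP) (hSHM : S_SHM) : S_ID := by
  intro G L K _ _ _ _ _ _ _ _ lam _ α hlam hα hpk hind V δ hδ hae
  have hprob : IsProbabilityMeasure (bm G lam) := by
    unfold bm
    infer_instance
  have hδm : Measurable δ := ID_delta_meas V δ hδ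
  have hΦm : Measurable (fun (x : G → L) (g : G) => α (sh g x)) :=
    measurable_pi_lambda _ fun g => hα.comp (ID_sh_meas g)
  have hψm : Measurable (fun (y : G → K) (g : G) => δ (sh g y)) :=
    measurable_pi_lambda _ fun g => hδm.comp (ID_sh_meas g)
  have hmp := hMP G L K lam α hα hind
  have hshΦ : ∀ (g : G) (x : G → L), sh g (fun h => α (sh h x)) = fun h => α (sh h (sh g x)) := by
    intro g x
    funext h
    show α (sh (h * g) x) = α (sh h (sh g x))
    rw [ID_sh_sh]
  have hall : ∀ᵐ x ∂(bm G lam), (fun g => δ (sh g (fun h => α (sh h x)))) = x := by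
    have h1 : ∀ᵐ x ∂(bm G lam), ∀ g : G, δ (sh g (fun h => α (sh h x))) = x g := by
      rw [ae_all_iff]
      intro g
      have hp : MeasurePreserving (sh g : (G → L) → (G → L)) (bm G lam) (bm G lam) :=
        ⟨ID_sh_meas g, hSHM G L lam g⟩
      have h2 := hp.quasiMeasurePreserving.ae hae
      filter_upwards [h2] with x hx
      rw [hshΦ, hx]
      show x (1 * g) = x g
      rw [one_mul]
    filter_upwards [h1] with x hx
    funext g
    exact hx g
  refine ⟨insert 1 V, ?_⟩
  refine ⟨Finset.mem_insert_self _ _, ?_, hlam, hψm, hΦm, ?_, ?_, ?_, ?_⟩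
  · intro k
    rw [Measure.map_apply hα (measurableSet_singleton k)]
    exact hpk k
  · intro g y
    funext h
    show δ (sh h (sh g y)) = δ (sh (h * g) y)
    rw [ID_sh_sh]
  · rw [← hmp, Measure.map_map hψm hΦm]
    have h1 : ((fun (y : G → K) (g : G) => δ (sh g y)) ∘ fun (x : G → L) (g : G) => α (sh g x))
        =ᵐ[bm G lam] id := hall
    rw [Measure.map_congr h1, Measure.map_id]
  · rw [← hmp]
    have h1 : ∀ᵐ y ∂(Measure.map (fun (x : G → L) (g : G) => α (sh g x)) (bm G lam)), ∀ g : G,
        α (sh g (fun h => δ (sh h y))) = y g := by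
      rw [ae_all_iff]
      intro g
      rw [ae_map_iff hΦm.aemeasurable]
      · filter_upwards [hall] with x hx
        rw [hx]
      · exact measurableSet_eq_fun ((measurable_pi_apply g).comp (hΦm.comp hψm))
          (measurable_pi_apply g)
    filter_upwards [h1] with y hy
    funext g
    exact hy g
  · intro y z hyz
    apply hδ
    intro g hg
    show y (g * 1) = z (g * 1)
    rw [mul_one]
    exact hyz g (Finset.mem_insert_of_mem hg)

end Pool.Agent.Work.MP_574bbd_an.OB
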