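import Pool.Agent.Work.MP_574bbd_an.OB.Stmts

/-!
Block OB, item IE: an encoder with a finite window.
-/

set_option autoImplicit false

namespace Pool.Agent.Work.MP_574bbd_an.OB

open MeasureTheory
open scoped Pointwise Classical

theorem IE_sh_sh {G L : Type} [Group G] (g h : G) (x : G → L) :
    sh h (sh g x) = sh (h * g) x := by
  funext k
  show x (k * h * g) = x (k * (h * g))
  rw [mul_assoc]

theorem IE_sh_one {G L : Type} [Group G] (x : G → L) : sh 1 x = x := by
  funext k
  show x (k * 1) = x k
  rw [mul_one]

theorem IE_measurable_sh {G L : Type} [Group G] [MeasurableSpace L] (g : G) :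
    Measurable (sh g : (G → L) → (G → L)) :=
  measurable_pi_lambda _ fun h => measurable_pi_apply (h * g)

theorem pr_IE (hMP : S_MP) (hDEC : S_DEC) : S_IE := by
  intro G L K _ _ _ _ _ _ _ _ lam _ α hla hα hne hind hgen hWin
  obtain ⟨W, hW⟩ := hWin
  obtain ⟨ψ, hψ, hinv⟩ := hDEC G L K lam α hα hgen
  refine ⟨insert 1 W, ψ, ?_⟩
  refine
    { one := Finset.mem_insert_self _ _
      pl := hla
      pk := ?_
      mφ := ?_
      mψ := hψ
      eq := ?_
      mp := hMP G L K lam α hα hind
      inv := hinv
      loc := ?_ }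
  · intro k
    rw [Measure.map_apply hα (measurableSet_singleton k)]
    exact hne k
  · exact measurable_pi_lambda _ fun g => hα.comp (IE_measurable_sh g)
  · intro g x
    funext h
    show α (sh h (sh g x)) = α (sh (h * g) x)
    rw [IE_sh_sh]
  · intro x y hxy
    show α (sh 1 x) = α (sh 1 y)
    rw [IE_sh_one, IE_sh_one]
    exact hW x y fun g hg => hxy g (Finset.mem_insert_of_mem hg)

end Pool.Agent.Work.MP_574bbd_an.OB
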