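import Pool.Agent.Work.MP_574bbd_an.OB.Stmts

/-!
# MP_574bbd_an, block OB, item IV: the integral of the potential
-/

set_option autoImplicit false

namespace Pool.Agent.Work.MP_574bbd_an.OB

open MeasureTheory
open scoped Pointwise Classical

theorem IV_ow_meas {G L : Type} [MeasurableSpace L] (A : Finset G) (c : G → L) :
    Measurable fun x : G → L => ow A x c := by
  refine measurable_pi_iff.2 fun g => ?_
  by_cases h : g ∈ A
  · have e : (fun x : G → L => ow A x c g) = fun x => x g := by
      funext x
      simp [ow, h]
    rw [e]
    exact measurable_pi_apply g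
  · have e : (fun x : G → L => ow A x c g) = fun _ => c g := by
      funext x
      simp [ow, h]
    rw [e]
    exact measurable_const

theorem IV_int {X K : Type} [MeasurableSpace X] [Finite K] [MeasurableSpace K]
    [MeasurableSingletonClass K] (m : Measure X) [IsProbabilityMeasure m] (F : X → K)
    (hF : Measurable F) (g : K → ℝ) : Integrable (fun x => g (F x)) m := by
  have : IsProbabilityMeasure (Measure.map F m) := Measure.isProbabilityMeasure_map hF.aemeasurable
  have h1 : Integrable g (Measure.map F m) := Integrable.of_finite
  exact h1.comp_measurable hF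

theorem IV_shmeas {G L : Type} [Group G] [MeasurableSpace L] (g : G) :
    Measurable (sh g : (G → L) → (G → L)) :=
  measurable_pi_iff.2 fun h => measurable_pi_apply (h * g)

theorem IV_sub4 {X : Type} [MeasurableSpace X] (m : Measure X) [IsProbabilityMeasure m]
    (F H : X → ℝ) (p q : ℝ) (i1 : Integrable F m) (i2 : Integrable H m) :
    ∫ x, ((F x - p) - (H x - q)) ∂m = (∫ x, (F x - H x) ∂m) - (p - q) := by
  have e : ∀ x, (F x - p) - (H x - q) = (F x - H x) - (p - q) := fun x => by ring
  simp_rw [e]
  have i3 : Integrable (fun x => F x - H x) m := i1.sub i2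
  rw [integral_sub i3 (integrable_const _)]
  simp

/-- item IV -/
theorem pr_IV (hCM : S_CM) (hCO : S_CO) : S_IV := by
  intro G L K _ _ _ _ _ _ _ _ lam kap _ _ W φ ψ hI m _ hm b
  set c : G → L := fun _ => b with hc
  set u : (G → L) → ℝ := fun z => Real.log (kap.real {φ z 1}) - Real.log (lam.real {z 1}) with hu
  set f : Finset G → ℝ := fun E => ∫ x, u (ow E x c) ∂m with hf
  -- values of the shifted potential
  have hushift : ∀ (g : G) (z : G → L),
      u (sh g z) = Real.log (kap.real {φ z g}) - Real.log (lam.real {z g}) := by
    intro g z
    have e1 : φ (sh g z) 1 = φ z g := by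
      rw [hI.eq g z]
      show φ z (1 * g) = φ z g
      rw [one_mul]
    have e2 : sh g z 1 = z g := by
      show z (1 * g) = z g
      rw [one_mul]
    show Real.log (kap.real {φ (sh g z) 1}) - Real.log (lam.real {sh g z 1}) = _
    rw [e1, e2]
  have hshc : ∀ g : G, sh g c = c := fun g => rfl
  have hphic : ∀ g : G, u c = Real.log (kap.real {φ c g}) - Real.log (lam.real {b}) := by
    intro g
    have := hushift g c
    rw [hshc g] at this
    exact this
  have hempty : f ∅ = u c := by
    have e : ∀ x : G → L, ow ∅ x c = c := by
      intro x
      funext g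
      simp [ow]
    show ∫ x, u (ow ∅ x c) ∂m = u c
    simp_rw [e]
    simp
  have hloc : ∀ z z' : G → L, (∀ g ∈ W, z g = z' g) → u z = u z' := by
    intro z z' h
    have e1 := hI.loc z z' h
    have e2 := h 1 hI.one
    show Real.log (kap.real {φ z 1}) - Real.log (lam.real {z 1}) =
      Real.log (kap.real {φ z' 1}) - Real.log (lam.real {z' 1})
    rw [e1, e2]
  have h1 : ∀ E : Finset G, f E = f (E ∩ W) := by
    intro E
    show ∫ x, u (ow E x c) ∂m = ∫ x, u (ow (E ∩ W) x c) ∂m
    refine integral_congr_ae (Filter.Eventually.of_forall fun x => ?_)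
    refine hloc _ _ fun g hg => ?_
    show ow E x c g = ow (E ∩ W) x c g
    simp [ow, hg]
  have humeas : Measurable u := by
    have m1 : Measurable fun z : G → L => φ z 1 := (measurable_pi_apply 1).comp hI.mφ
    have m2 : Measurable fun z : G → L => z 1 := measurable_pi_apply 1
    have m3 : Measurable fun k : K => Real.log (kap.real {k}) := measurable_of_countable _
    have m4 : Measurable fun a : L => Real.log (lam.real {a}) := measurable_of_countable _
    exact (m3.comp m1).sub (m4.comp m2)
  have h2 : ∀ A : Finset G,
      ∑ g ∈ W⁻¹ * A, (f (A.image (fun a => a * g⁻¹)) - f ∅) = 0 := by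
    intro A
    have hterm : ∀ g : G, f (A.image (fun a => a * g⁻¹)) - f ∅ =
        ∫ x, ((Real.log (kap.real {φ (ow A x c) g}) - Real.log (kap.real {φ c g})) -
          (Real.log (lam.real {ow A x c g}) - Real.log (lam.real {b}))) ∂m := by
      intro g
      have e0 : f (A.image (fun a => a * g⁻¹)) =
          ∫ x, (Real.log (kap.real {φ (ow A x c) g}) - Real.log (lam.real {ow A x c g})) ∂m := by
        show ∫ x, u (ow (A.image (fun a => a * g⁻¹)) x c) ∂m = _
        conv_lhs => rw [← hm g]
        have hm2 : Measurable fun x : G → L => u (ow (A.image (fun a => a * g⁻¹)) x c) :=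
          humeas.comp (IV_ow_meas _ c)
        rw [integral_map (IV_shmeas g).aemeasurable hm2.aestronglyMeasurable]
        refine integral_congr_ae (Filter.Eventually.of_forall fun x => ?_)
        show u (ow (A.image (fun a => a * g⁻¹)) (sh g x) c) = _
        have e1 : ow (A.image (fun a => a * g⁻¹)) (sh g x) c = sh g (ow A x c) := by
          funext h
          have e2 : h ∈ A.image (fun a => a * g⁻¹) ↔ h * g ∈ A := by
            rw [Finset.mem_image]
            constructor
            · rintro ⟨a, ha, rfl⟩
              simpa using ha
            · intro hh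
              exact ⟨h * g, hh, by simp⟩
          show (if h ∈ A.image (fun a => a * g⁻¹) then sh g x h else c h) =
            (if h * g ∈ A then x (h * g) else c (h * g))
          by_cases hh : h * g ∈ A
          · rw [if_pos (e2.2 hh), if_pos hh]
            rfl
          · rw [if_neg (fun h3 => hh (e2.1 h3)), if_neg hh]
        rw [e1, hushift g (ow A x c)]
      have mo : Measurable fun x : G → L => ow A x c := IV_ow_meas A c
      have i1 : Integrable (fun x : G → L => Real.log (kap.real {φ (ow A x c) g})) m :=
        IV_int m (fun x : G → L => φ (ow A x c) g)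
          ((measurable_pi_apply g).comp (hI.mφ.comp mo)) fun k => Real.log (kap.real {k})
      have i2 : Integrable (fun x : G → L => Real.log (lam.real {ow A x c g})) m :=
        IV_int m (fun x : G → L => ow A x c g)
          ((measurable_pi_apply g).comp mo) fun k => Real.log (lam.real {k})
      rw [e0, hempty, hphic g]
      exact (IV_sub4 m _ _ _ _ i1 i2).symm
    rw [Finset.sum_congr rfl fun g _ => hterm g]
    rw [← integral_finsetSum]
    · have hz : ∀ x : G → L, ∑ g ∈ W⁻¹ * A,
          ((Real.log (kap.real {φ (ow A x c) g}) - Real.log (kap.real {φ c g})) -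
          (Real.log (lam.real {ow A x c g}) - Real.log (lam.real {b}))) = 0 := by
        intro x
        rw [Finset.sum_sub_distrib]
        have e1 := hCO G L K lam kap W φ ψ hI A (ow A x c) c (fun g hg => by simp [ow, hg])
        rw [e1]
        have hsub : A ⊆ W⁻¹ * A := by
          intro a ha
          have h3 : (1 : G)⁻¹ * a ∈ W⁻¹ * A := Finset.mul_mem_mul (Finset.inv_mem_inv hI.one) ha
          simpa using h3
        have e2 := Finset.sum_subset (f := fun g =>
          Real.log (lam.real {ow A x c g}) - Real.log (lam.real {b})) hsub (fun g _ hg => by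
            have e3 : ow A x c g = b := by simp [ow, hg, hc]
            simp only [e3, sub_self])
        rw [← e2]
        exact sub_self _
      simp_rw [hz]
      simp
    · intro g _
      have mo : Measurable fun x : G → L => ow A x c := IV_ow_meas A c
      have i1 : Integrable (fun x : G → L => Real.log (kap.real {φ (ow A x c) g})) m :=
        IV_int m (fun x : G → L => φ (ow A x c) g)
          ((measurable_pi_apply g).comp (hI.mφ.comp mo)) fun k => Real.log (kap.real {k})
      have i2 : Integrable (fun x : G → L => Real.log (lam.real {ow A x c g})) m :=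
        IV_int m (fun x : G → L => ow A x c g)
          ((measurable_pi_apply g).comp mo) fun k => Real.log (lam.real {k})
      exact (i1.sub (integrable_const _)).sub (i2.sub (integrable_const _))
  have h3 := hCM G W f h1 h2
  rw [hempty] at h3
  have h4 : f W = ∫ x, u x ∂m := by
    show ∫ x, u (ow W x c) ∂m = ∫ x, u x ∂m
    refine integral_congr_ae (Filter.Eventually.of_forall fun x => ?_)
    refine hloc _ _ fun g hg => ?_
    show ow W x c g = x g
    simp [ow, hg]
  rw [← h4, h3]

end Pool.Agent.Work.MP_574bbd_an.OB
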