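import Pool.Agent.Work.MP_574bbd_an.OB.Stmts

/-! Item LOC of block OB (MP_574bbd_an). -/

set_option autoImplicit false

namespace Pool.Agent.Work.MP_574bbd_an.OB

open MeasureTheory
open scoped Pointwise Classical

theorem pr_LOC : S_LOC := by
  intro G L K _ _ _ lam kap W φ ψ hI x y g hxy
  have h1 : ∀ z : G → L, φ z g = φ (sh g z) 1 := by
    intro z
    rw [hI.eq g z]
    show φ z g = φ z (1 * g)
    rw [one_mul]
  rw [h1 x, h1 y]
  exact hI.loc _ _ fun h hh => hxy h hh

end Pool.Agent.Work.MP_574bbd_an.OB
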