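import Pool.Agent.Work.MP_574bbd_an.OB.Stmts

/-! Item [574bbd OB M1]: inversion over subsets. -/

set_option autoImplicit false

namespace Pool.Agent.Work.MP_574bbd_an.OB

open MeasureTheory
open scoped Pointwise Classical

theorem pr_M1 : S_M1 := by
  intro G f
  let F : Finset G → ℝ := Finset.strongInduction
    (fun s ih => f s - ∑ t ∈ s.ssubsets.attach, ih t.1 (Finset.mem_ssubsets.1 t.2))
  refine ⟨F, fun E => ?_⟩
  have h1 : F E = f E - ∑ t ∈ E.ssubsets.attach, F t.1 :=
    Finset.strongInduction_eq _ E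
  have h2 : ∑ t ∈ E.ssubsets.attach, F t.1 = ∑ t ∈ E.ssubsets, F t :=
    Finset.sum_attach E.ssubsets F
  have h3 : F E + ∑ t ∈ E.ssubsets, F t = ∑ D ∈ E.powerset, F D :=
    Finset.add_sum_erase E.powerset F (Finset.mem_powerset_self E)
  linarith

end Pool.Agent.Work.MP_574bbd_an.OB
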