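import Pool.Agent.Work.MP_574bbd_an.OB.Stmts

/-!
Block OB, item M2: uniqueness in the inversion over subsets.
-/

set_option autoImplicit false

namespace Pool.Agent.Work.MP_574bbd_an.OB

open MeasureTheory
open scoped Pointwise Classical

/-- item M2 -/
theorem pr_M2 : S_M2 := by
  intro G T hT B
  induction B using Finset.strongInduction with
  | H B ih =>
    have h1 := hT B
    rw [Finset.sum_eq_single B] at h1
    · exact h1
    · intro D hD hne
      exact ih D (lt_of_le_of_ne (Finset.mem_powerset.mp hD) hne)
    · intro h
      exact absurd (Finset.mem_powerset_self B) h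

end Pool.Agent.Work.MP_574bbd_an.OB
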