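import Pool.Agent.Work.MP_574bbd_an.OB.Stmts

set_option autoImplicit false

namespace Pool.Agent.Work.MP_574bbd_an.OB

open MeasureTheory
open scoped Pointwise Classical

/-- Item MP: independent translates. -/
theorem pr_MP (hSHM : S_SHM) : S_MP := by
  intro G L K _ _ _ _ lam _ α hα hind
  have hsh : ∀ g : G, Measurable (sh g : (G → L) → (G → L)) := by
    intro g
    refine measurable_pi_iff.2 fun h => ?_
    exact measurable_pi_apply (h * g)
  haveI : IsProbabilityMeasure (bm G lam) := by
    unfold bm; infer_instance
  have hX : ∀ g : G, Measurable (fun x : G → L => α (sh g x)) := fun g => hα.comp (hsh g)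
  have h1 := (ProbabilityTheory.iIndepFun_iff_map_fun_eq_infinitePi_map hX).1 hind
  rw [h1]
  have h2 : ∀ g : G, Measure.map (fun x : G → L => α (sh g x)) (bm G lam) =
      Measure.map α (bm G lam) := by
    intro g
    have h3 : Measure.map α (Measure.map (sh g) (bm G lam)) =
        Measure.map (α ∘ sh g) (bm G lam) := Measure.map_map hα (hsh g)
    have h4 := hSHM G L lam g
    rw [h4] at h3
    exact h3.symm
  have h5 : (fun g : G => Measure.map (fun x : G → L => α (sh g x)) (bm G lam)) =
      fun _ : G => Measure.map α (bm G lam) := funext h2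
  simp only [bm] at h5 ⊢
  rw [h5]

end Pool.Agent.Work.MP_574bbd_an.OB
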