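import Pool.Agent.Work.MP_574bbd_an.OB.Stmts

set_option autoImplicit false

namespace Pool.Agent.Work.MP_574bbd_an.OB

open MeasureTheory
open scoped Pointwise Classical

theorem pr_N (hR : S_R) : S_N := by
  intro G K _ _ _ ν _ A q P hν hP
  have hZm : MeasurableSet (toMeasurable (bm G ν) {w : G → K | ¬ P w}) :=
    measurableSet_toMeasurable _ _
  have hZ0 : bm G ν (toMeasurable (bm G ν) {w : G → K | ¬ P w}) = 0 := by
    rw [measure_toMeasurable]
    exact ae_iff.mp hP
  have h := hR G K ν A q _ hZm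
  have h0 : bm G ν (toMeasurable (bm G ν) {w : G → K | ¬ P w} ∩ {y | ∀ g ∈ A, y g = q g}) = 0 :=
    measure_mono_null Set.inter_subset_left hZ0
  rw [h0] at h
  have hprod : (∏ g ∈ A, ν {q g}) ≠ 0 := Finset.prod_ne_zero_iff.mpr fun g _ => hν (q g)
  have h1 : bm G ν {y | ow A q y ∈ toMeasurable (bm G ν) {w : G → K | ¬ P w}} = 0 := by
    rcases mul_eq_zero.mp h.symm with h2 | h2
    · exact absurd h2 hprod
    · exact h2
  rw [ae_iff]
  refine measure_mono_null ?_ h1
  intro w hw
  exact subset_toMeasurable (bm G ν) {w : G → K | ¬ P w} hw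

end Pool.Agent.Work.MP_574bbd_an.OB
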