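import Mathlib
import Pool.Agent.Work.MP_574bbd_an.OB.Stmts

set_option autoImplicit false

namespace Pool.Agent.Work.MP_574bbd_an.OB

open scoped Classical

theorem pr_ND : S_ND := by
  intro L K _ _ p q d hp hq hp1 hq1 hd hL hK
  obtain ⟨H, hH⟩ : ∃ H, H = ∑ b, Real.negMulLog (p b) := ⟨_, rfl⟩
  obtain ⟨H', hH'⟩ : ∃ H', H' = ∑ k, Real.negMulLog (q k) := ⟨_, rfl⟩
  rw [← hH, ← hH'] at hd
  rw [← hH, ← hH']
  by_cases hs : Function.Surjective d
  · obtain ⟨s, hs⟩ := hs.hasRightInverse
    have hinj : Function.Injective s := hs.injective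
    have h1 : ∑ a, p a ≤ ∑ k, p (d k) := by
      have e1 : ∑ a, p a = ∑ a, p (d (s a)) := by
        refine Finset.sum_congr rfl fun a _ => ?_
        rw [hs a]
      have e2 : ∑ a, p (d (s a)) = ∑ k ∈ Finset.univ.map ⟨s, hinj⟩, p (d k) := by
        rw [Finset.sum_map]
        rfl
      rw [e1, e2]
      exact Finset.sum_le_sum_of_subset_of_nonneg (Finset.subset_univ _) fun k _ _ => (hp _).le
    have h2 : ∑ k, p (d k) = Real.exp (H' - H) := by
      rw [Finset.sum_congr rfl fun k _ => hd k, ← Finset.mul_sum, hq1, mul_one]
    rw [hp1, h2] at h1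
    have h3 := Real.one_le_exp_iff.1 h1
    linarith
  · obtain ⟨x, y, hxy, huniv⟩ := Finset.card_eq_two.1 (by rw [Finset.card_univ, hL] :
      (Finset.univ : Finset L).card = 2)
    have hmem : ∀ z : L, z = x ∨ z = y := fun z => by
      have := Finset.mem_univ z
      rw [huniv] at this
      simpa using this
    have hex : ∃ a b : L, a ≠ b ∧ (∀ k, d k = a) ∧ (Finset.univ : Finset L) = {a, b} := by
      simp only [Function.Surjective, not_forall, not_exists] at hs
      obtain ⟨b, hb⟩ := hs
      rcases hmem b with rfl | rfl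
      · refine ⟨y, b, hxy.symm, fun k => ?_, by rw [huniv, Finset.pair_comm]⟩
        rcases hmem (d k) with h | h
        · exact absurd h (hb k)
        · exact h
      · refine ⟨x, b, hxy, fun k => ?_, huniv⟩
        rcases hmem (d k) with h | h
        · exact h
        · exact absurd h (hb k)
    obtain ⟨a, b, hab, hda, hu⟩ := hex
    obtain ⟨n, hn⟩ : ∃ n : ℝ, n = (Fintype.card K : ℝ) := ⟨_, rfl⟩
    have hn2 : (2 : ℝ) ≤ n := by rw [hn]; exact_mod_cast hK
    have hn0 : (0 : ℝ) < n := by linarith
    have hqc : ∀ k, q k = p a / Real.exp (H' - H) := fun k => by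
      have := hd k
      rw [hda k] at this
      rw [this]
      field_simp
    obtain ⟨c, hc⟩ : ∃ c, c = p a / Real.exp (H' - H) := ⟨_, rfl⟩
    rw [← hc] at hqc
    have hcn : n * c = 1 := by
      have := hq1
      rw [Finset.sum_congr rfl fun k _ => hqc k, Finset.sum_const, Finset.card_univ,
        nsmul_eq_mul] at this
      rw [hn]; exact this
    have hcinv : c = n⁻¹ := by
      field_simp
      linarith
    have hH'2 : H' = Real.log n := by
      rw [hH', Finset.sum_congr rfl fun k _ => congrArg Real.negMulLog (hqc k), Finset.sum_const,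
        Finset.card_univ, nsmul_eq_mul, ← hn, Real.negMulLog, hcinv, Real.log_inv]
      field_simp
    have hpa : Real.log (p a) = -H := by
      have h1 : p a = c * Real.exp (H' - H) := by rw [hc]; field_simp
      rw [h1, Real.log_mul (by rw [hcinv]; positivity) (Real.exp_pos _).ne', Real.log_exp, hcinv,
        Real.log_inv, hH'2]
      ring
    have hpab : p a + p b = 1 := by
      have := hp1
      rw [hu, Finset.sum_pair hab] at this
      exact this
    have hH2 : H = - (p a * Real.log (p a)) - p b * Real.log (p b) := by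
      rw [hH, hu, Finset.sum_pair hab, Real.negMulLog, Real.negMulLog]
      ring
    have h3 : p b * (Real.log (p a) - Real.log (p b)) = 0 := by
      have h4 : - Real.log (p a) = - (p a * Real.log (p a)) - p b * Real.log (p b) := by
        rw [← hH2, hpa]; ring
      have h5 : p a = 1 - p b := by linarith
      have h6 : p a * Real.log (p a) = (1 - p b) * Real.log (p a) := by rw [← h5]
      linarith
    have h4 : Real.log (p a) = Real.log (p b) := by
      rcases mul_eq_zero.1 h3 with h | h
      · exact absurd h (hp b).ne'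
      · linarith
    have h5 : p a = p b := Real.log_injOn_pos (hp a) (hp b) h4
    have h6 : p a = 2⁻¹ := by linarith
    have h7 : H = Real.log 2 := by
      have := hpa
      rw [h6, Real.log_inv] at this
      linarith
    rw [h7, hH'2]
    exact Real.log_le_log (by norm_num) hn2

end Pool.Agent.Work.MP_574bbd_an.OB
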