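import Pool.Agent.Work.MP_574bbd_an.OB.Stmts

/-!
Block OB, item NE: different letter probabilities.
-/

set_option autoImplicit false

namespace Pool.Agent.Work.MP_574bbd_an.OB

open MeasureTheory
open scoped Pointwise Classical

theorem pr_NE : S_NE := by
  intro L K _ _ p q d _ hq hp1 hq1 hd hinj
  obtain ⟨t, ht⟩ : ∃ t : ℝ, t = ∑ b, Real.negMulLog (p b) - ∑ k, Real.negMulLog (q k) := ⟨_, rfl⟩
  rw [← ht] at hd
  have hdi : Function.Injective d := by
    intro a b hab
    apply hinj
    have h1 := hd a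
    rw [hab, hd b] at h1
    exact (mul_left_cancel₀ (Real.exp_pos t).ne' h1).symm
  have h2 : Real.exp t ≤ 1 := by
    calc Real.exp t = ∑ a, Real.exp t * p a := by rw [← Finset.mul_sum, hp1, mul_one]
      _ = ∑ a, q (d a) := Finset.sum_congr rfl fun a _ => (hd a).symm
      _ = ∑ k ∈ Finset.univ.image d, q k := (Finset.sum_image fun a _ b _ h => hdi h).symm
      _ ≤ ∑ k, q k := Finset.sum_le_sum_of_subset_of_nonneg (Finset.subset_univ _) fun k _ _ => (hq k).le
      _ = 1 := hq1
  have h3 : t ≤ 0 := by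
    rwa [Real.exp_le_one_iff] at h2
  linarith

end Pool.Agent.Work.MP_574bbd_an.OB
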