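import Pool.Agent.Work.MP_574bbd_an.OB.Stmts

/-!
Item PP of the block OB (MP_574bbd_an).
-/

set_option autoImplicit false

namespace Pool.Agent.Work.MP_574bbd_an.OB

open MeasureTheory
open scoped Pointwise Classical

theorem pr_PP : S_PP := by
  intro G L K _ _ _ _ _ _ _ _ lam kap _ _ W φ ψ h
  have h3 : ∀ C : Set (G → L), MeasurableSet C → bm G kap (ψ ⁻¹' C) = bm G lam C := by
    intro C hC
    rw [← h.mp, Measure.map_apply h.mφ (h.mψ hC)]
    apply measure_congr
    filter_upwards [h.inv] with x hx
    have : ((φ ⁻¹' (ψ ⁻¹' C)) x ↔ C x) := by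
      change ψ (φ x) ∈ C ↔ x ∈ C
      rw [hx]
    exact propext this
  have hmap : Measure.map ψ (bm G kap) = bm G lam := by
    ext C hC
    rw [Measure.map_apply h.mψ hC, h3 C hC]
  refine ⟨?_, ?_, h3⟩
  · intro P hP
    rw [← hmap] at hP
    exact ae_of_ae_map h.mψ.aemeasurable hP
  · rw [← h.mp]
    have hmeas : MeasurableSet {w : G → K | φ (ψ w) = w} := by
      have heq : {w : G → K | φ (ψ w) = w} = ⋂ g : G, {w : G → K | φ (ψ w) g = w g} := by
        ext w
        simp only [Set.mem_ofPred_eq, Set.mem_iInter]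
        exact funext_iff
      rw [heq]
      refine MeasurableSet.iInter fun g => ?_
      exact measurableSet_eq_fun
        ((measurable_pi_apply g).comp (h.mφ.comp h.mψ)) (measurable_pi_apply g)
    rw [ae_map_iff h.mφ.aemeasurable hmeas]
    filter_upwards [h.inv] with x hx
    rw [hx]

end Pool.Agent.Work.MP_574bbd_an.OB
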