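import Pool.Agent.Work.MP_574bbd_an.OB.Stmts

/-!
# MP_574bbd_an, block OB, item R: overwriting finitely many coordinates
-/

set_option autoImplicit false

namespace Pool.Agent.Work.MP_574bbd_an.OB

open MeasureTheory
open scoped Pointwise Classical

namespace IR

theorem meas_cyl {G K : Type} [MeasurableSpace K] [MeasurableSingletonClass K]
    (A : Finset G) (q : G → K) : MeasurableSet {y : G → K | ∀ g ∈ A, y g = q g} := by
  have h : {y : G → K | ∀ g ∈ A, y g = q g} = ⋂ g ∈ A, (fun y : G → K => y g) ⁻¹' {q g} := by
    ext y
    simp only [Set.mem_setOf_eq, Set.mem_iInter, Set.mem_preimage, Set.mem_singleton_iff]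
  rw [h]
  exact Finset.measurableSet_biInter A
    (fun g _ => measurable_pi_apply g (measurableSet_singleton (q g)))

theorem ow_empty {G K : Type} (q y : G → K) : ow ∅ q y = y := by
  funext g
  unfold ow
  rw [if_neg (Finset.notMem_empty g)]

theorem ow_insert {G K : Type} (A : Finset G) (s : G) (q y : G → K) :
    Function.update (ow A q y) s (q s) = ow (insert s A) q y := by
  funext g
  by_cases hg : g = s
  · subst hg
    rw [Function.update_self]
    unfold ow
    rw [if_pos (Finset.mem_insert_self g A)]
  · rw [Function.update_of_ne hg]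
    unfold ow
    by_cases hA : g ∈ A
    · rw [if_pos hA, if_pos (Finset.mem_insert_of_mem hA)]
    · have h2 : g ∉ insert s A := fun h => by
        rcases Finset.mem_insert.1 h with h | h
        · exact hg h
        · exact hA h
      rw [if_neg hA, if_neg h2]

end IR

theorem pr_R (h1 : S_R1) : S_R := by
  intro G K _ _ _ ν _ A q
  induction A using Finset.induction_on with
  | empty =>
    intro S hS
    have e1 : S ∩ {y : G → K | ∀ g ∈ (∅ : Finset G), y g = q g} = S := by
      ext y
      constructor
      · exact fun h => h.1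
      · exact fun h => ⟨h, fun g hg => absurd hg (Finset.notMem_empty g)⟩
    have e2 : {y : G → K | ow ∅ q y ∈ S} = S := by
      ext y
      show ow ∅ q y ∈ S ↔ y ∈ S
      rw [IR.ow_empty]
    rw [e1, e2, Finset.prod_empty, one_mul]
  | insert s A hs ih =>
    intro S hS
    have e1 : S ∩ {y : G → K | ∀ g ∈ insert s A, y g = q g} =
        (S ∩ {y : G → K | ∀ g ∈ A, y g = q g}) ∩ {y : G → K | y s = q s} := by
      ext y
      constructor
      · rintro ⟨h2, h3⟩
        exact ⟨⟨h2, fun g hg => h3 g (Finset.mem_insert_of_mem hg)⟩, h3 s (Finset.mem_insert_self s A)⟩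
      · rintro ⟨⟨h2, h3⟩, h4⟩
        refine ⟨h2, fun g hg => ?_⟩
        rcases Finset.mem_insert.1 hg with h | h
        · rw [h]
          exact h4
        · exact h3 g h
    have e2 : {y : G → K | Function.update y s (q s) ∈ S ∩ {y : G → K | ∀ g ∈ A, y g = q g}} =
        {y : G → K | Function.update y s (q s) ∈ S} ∩ {y : G → K | ∀ g ∈ A, y g = q g} := by
      ext y
      constructor
      · rintro ⟨h2, h3⟩
        refine ⟨h2, fun g hg => ?_⟩
        have hne : g ≠ s := fun h => hs (h ▸ hg)
        have h4 : Function.update y s (q s) g = q g := h3 g hg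
        rwa [Function.update_of_ne hne] at h4
      · rintro ⟨h2, h3⟩
        refine ⟨h2, fun g hg => ?_⟩
        have hne : g ≠ s := fun h => hs (h ▸ hg)
        rw [Function.update_of_ne hne]
        exact h3 g hg
    have hm : MeasurableSet {y : G → K | Function.update y s (q s) ∈ S} :=
      measurable_update_left hS
    have e3 : {y : G → K | ow A q y ∈ {y : G → K | Function.update y s (q s) ∈ S}} =
        {y : G → K | ow (insert s A) q y ∈ S} := by
      ext y
      show Function.update (ow A q y) s (q s) ∈ S ↔ ow (insert s A) q y ∈ S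
      rw [IR.ow_insert]
    rw [e1, h1 G K ν s (q s) _ (hS.inter (IR.meas_cyl A q)), e2, ih _ hm, e3,
      Finset.prod_insert hs, mul_assoc]

end Pool.Agent.Work.MP_574bbd_an.OB
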