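import Pool.Agent.Work.MP_574bbd_an.OB.Stmts

set_option autoImplicit false

namespace Pool.Agent.Work.MP_574bbd_an.OB

open MeasureTheory
open scoped Pointwise Classical

/-- Item R1: one coordinate. -/
theorem pr_R1 : S_R1 := by
  intro G K _ _ _ ν _ s k S hS
  haveI hp : IsProbabilityMeasure (bm G ν) := by unfold bm; infer_instance
  set U : (G → K) × K → (G → K) := fun p => Function.update p.1 s p.2 with hU
  have hUm : Measurable U := by
    refine measurable_pi_iff.2 fun g => ?_
    by_cases hg : g = s
    · subst hg
      have h0 : (fun p : (G → K) × K => U p g) = fun p => p.2 := by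
        funext p; simp [hU]
      rw [h0]; exact measurable_snd
    · have h0 : (fun p : (G → K) × K => U p g) = fun p => p.1 g := by
        funext p; simp [hU, Function.update_of_ne hg]
      rw [h0]; exact (measurable_pi_apply g).comp measurable_fst
  have hmap : Measure.map U ((bm G ν).prod ν) = bm G ν := by
    refine Measure.eq_infinitePi (fun _ : G => ν) fun I t ht => ?_
    rw [Measure.map_apply hUm (MeasurableSet.pi I.countable_toSet fun i _ => ht i)]
    have hpre : U ⁻¹' (Set.pi (I : Set G) t) =
        (Set.pi ((I.erase s : Finset G) : Set G) t) ×ˢ (if s ∈ I then t s else Set.univ) := by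
      ext ⟨y, k'⟩
      simp only [Set.mem_preimage, Set.mem_pi, Set.mem_prod, Finset.mem_coe, Finset.mem_erase, hU]
      constructor
      · intro h
        refine ⟨fun i hi => ?_, ?_⟩
        · have h2 := h i hi.2
          rwa [Function.update_of_ne hi.1] at h2
        · split_ifs with hs
          · have h2 := h s hs
            rwa [Function.update_self] at h2
          · trivial
      · rintro ⟨h1, h2⟩ i hi
        by_cases his : i = s
        · subst his
          rw [Function.update_self]
          rwa [if_pos hi] at h2
        · rw [Function.update_of_ne his]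
          exact h1 i ⟨his, hi⟩
    rw [hpre, Measure.prod_prod]
    have h1 : bm G ν (Set.pi ((I.erase s : Finset G) : Set G) t) = ∏ i ∈ I.erase s, ν (t i) :=
      Measure.infinitePi_pi (fun _ : G => ν) (fun i _ => ht i)
    rw [h1]
    by_cases hs : s ∈ I
    · rw [if_pos hs, mul_comm, Finset.mul_prod_erase I (fun i => ν (t i)) hs]
    · rw [if_neg hs, measure_univ, mul_one, Finset.erase_eq_of_notMem hs]
  have hk : MeasurableSet ({y : G → K | y s = k}) :=
    measurableSet_eq_fun (measurable_pi_apply (X := fun _ : G => K) s) measurable_const
  have hT : MeasurableSet (S ∩ {y : G → K | y s = k}) := hS.inter hk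
  calc bm G ν (S ∩ {y | y s = k})
      = Measure.map U ((bm G ν).prod ν) (S ∩ {y | y s = k}) := by rw [hmap]
    _ = ((bm G ν).prod ν) (U ⁻¹' (S ∩ {y | y s = k})) := Measure.map_apply hUm hT
    _ = ((bm G ν).prod ν) ({y : G → K | Function.update y s k ∈ S} ×ˢ {k}) := by
        congr 1
        ext ⟨y, k'⟩
        simp only [Set.mem_preimage, Set.mem_inter_iff, Set.mem_setOf_eq, Set.mem_prod,
          Set.mem_singleton_iff, hU, Function.update_self]
        constructor
        · rintro ⟨h1, h2⟩
          subst h2
          exact ⟨h1, rfl⟩
        · rintro ⟨h1, h2⟩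
          subst h2
          exact ⟨h1, rfl⟩
    _ = ν {k} * bm G ν {y | Function.update y s k ∈ S} := by
        rw [Measure.prod_prod, mul_comm]

end Pool.Agent.Work.MP_574bbd_an.OB
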