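import Pool.Agent.Work.MP_574bbd_an.OB.I_CM
import Pool.Agent.Work.MP_574bbd_an.OB.I_CO
import Pool.Agent.Work.MP_574bbd_an.OB.I_CO1
import Pool.Agent.Work.MP_574bbd_an.OB.I_CORE
import Pool.Agent.Work.MP_574bbd_an.OB.I_DEC
import Pool.Agent.Work.MP_574bbd_an.OB.I_FIN
import Pool.Agent.Work.MP_574bbd_an.OB.I_HE
import Pool.Agent.Work.MP_574bbd_an.OB.I_ID
import Pool.Agent.Work.MP_574bbd_an.OB.I_IE
import Pool.Agent.Work.MP_574bbd_an.OB.I_IV
import Pool.Agent.Work.MP_574bbd_an.OB.I_K2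
import Pool.Agent.Work.MP_574bbd_an.OB.I_LOC
import Pool.Agent.Work.MP_574bbd_an.OB.I_M1
import Pool.Agent.Work.MP_574bbd_an.OB.I_M2
import Pool.Agent.Work.MP_574bbd_an.OB.I_MP
import Pool.Agent.Work.MP_574bbd_an.OB.I_N
import Pool.Agent.Work.MP_574bbd_an.OB.I_ND
import Pool.Agent.Work.MP_574bbd_an.OB.I_NE
import Pool.Agent.Work.MP_574bbd_an.OB.I_PP
import Pool.Agent.Work.MP_574bbd_an.OB.I_R
import Pool.Agent.Work.MP_574bbd_an.OB.I_R1
import Pool.Agent.Work.MP_574bbd_an.OB.I_SHM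

/-!
# MP_574bbd_an, block OB: assembly
-/

set_option autoImplicit false

namespace Pool.Agent.Work.MP_574bbd_an.OB

theorem all_R : S_R := pr_R pr_R1

theorem all_N : S_N := pr_N all_R

theorem all_CO1 : S_CO1 := pr_CO1 all_R all_N pr_LOC pr_PP

theorem all_CO : S_CO := pr_CO all_R all_CO1

theorem all_CM : S_CM := pr_CM pr_M1 pr_M2

theorem all_IV : S_IV := pr_IV all_CM all_CO

theorem all_CORE : S_CORE := pr_CORE pr_SHM all_IV pr_HE

theorem all_MP : S_MP := pr_MP pr_SHM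

theorem all_DEC : S_DEC := pr_DEC pr_SHM

theorem all_IE : S_IE := pr_IE all_MP all_DEC

theorem all_ID : S_ID := pr_ID all_MP pr_SHM

theorem all_FIN : S_FIN := pr_FIN all_IE all_ID all_CORE pr_NE pr_ND pr_K2

end Pool.Agent.Work.MP_574bbd_an.OB
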