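import Mathlib
import Pool.Agent.Work.MP_574bbd_an.OB.All

/-!
# MP_574bbd_an, block OB: a lower bound for all bases
-/

set_option autoImplicit false

namespace Pool.Agent.Work.MP_574bbd_an.OB

open MeasureTheory
open scoped Classical

/-- The binary entropy of one mass is at most the entropy. -/
theorem bin_le {K : Type} [Fintype K] (q : K → ℝ) (hq : ∀ k, 0 < q k) (h1 : ∑ k, q k = 1)
    (k : K) : Real.binEntropy (q k) ≤ ∑ k, Real.negMulLog (q k) := by
  have hsplit : q k + ∑ k' ∈ Finset.univ.erase k, q k' = ∑ k', q k' :=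
    Finset.add_sum_erase _ _ (Finset.mem_univ k)
  have hr : ∑ k' ∈ Finset.univ.erase k, q k' = 1 - q k := by linarith
  have hsplit2 : Real.negMulLog (q k) + ∑ k' ∈ Finset.univ.erase k, Real.negMulLog (q k') =
      ∑ k', Real.negMulLog (q k') :=
    Finset.add_sum_erase _ (fun k => Real.negMulLog (q k)) (Finset.mem_univ k)
  have hmain : Real.negMulLog (∑ k' ∈ Finset.univ.erase k, q k') ≤
      ∑ k' ∈ Finset.univ.erase k, Real.negMulLog (q k') := by
    have e1 : Real.negMulLog (∑ k' ∈ Finset.univ.erase k, q k') =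
        ∑ k' ∈ Finset.univ.erase k, -(q k' * Real.log (∑ k' ∈ Finset.univ.erase k, q k')) := by
      rw [Real.negMulLog, Finset.sum_neg_distrib, ← Finset.sum_mul]
      ring
    rw [e1]
    refine Finset.sum_le_sum fun k' hk' => ?_
    rw [Real.negMulLog]
    have h2 : q k' ≤ ∑ k' ∈ Finset.univ.erase k, q k' :=
      Finset.single_le_sum (f := q) (fun i _ => (hq i).le) hk'
    have h3 := Real.log_le_log (hq k') h2
    nlinarith [hq k']
  rw [Real.binEntropy_eq_negMulLog_add_negMulLog_one_sub, ← hr]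
  linarith

theorem bin_mono {m s : ℝ} (h0 : 0 ≤ m) (h1 : m ≤ s) (h2 : s ≤ 1 - m) :
    Real.binEntropy m ≤ Real.binEntropy s := by
  rcases le_total s 2⁻¹ with h | h
  · exact Real.binEntropy_strictMonoOn.monotoneOn ⟨h0, by linarith⟩ ⟨by linarith, h⟩ h1
  · rw [← Real.binEntropy_one_sub s]
    have h3 : (2 : ℝ)⁻¹ + 2⁻¹ = 1 := by norm_num
    exact Real.binEntropy_strictMonoOn.monotoneOn ⟨h0, by linarith⟩
      ⟨by linarith, by linarith⟩ (by linarith)

theorem le_one_sub {K : Type} [Fintype K] (q : K → ℝ) (hq : ∀ k, 0 < q k) (h1 : ∑ k, q k = 1)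
    {k l : K} (hkl : k ≠ l) : q k ≤ 1 - q l := by
  have h2 : q k + q l ≤ ∑ k, q k := by
    rw [← Finset.sum_pair hkl]
    exact Finset.sum_le_sum_of_subset_of_nonneg (Finset.subset_univ _) fun i _ _ => (hq i).le
  linarith

/-- The bound for the base itself. -/
theorem num_base {L : Type} [Fintype L] (p : L → ℝ) (hp : ∀ a, 0 < p a) (hp1 : ∑ a, p a = 1)
    (hL : 2 ≤ Fintype.card L) (m : ℝ) (h0 : 0 ≤ m) (hm : ∀ a, m ≤ p a) :
    Real.binEntropy m ≤ ∑ a, Real.negMulLog (p a) := by
  haveI : Nontrivial L := Fintype.one_lt_card_iff_nontrivial.mp (by omega)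
  obtain ⟨a, b, hab⟩ := exists_pair_ne L
  have h1 := le_one_sub p hp hp1 hab
  exact (bin_mono h0 (hm a) (by linarith [hm b])).trans (bin_le p hp hp1 a)

/-- The encoder case. -/
theorem num_E {L K : Type} [Fintype L] [Fintype K] (p : L → ℝ) (q : K → ℝ) (d : L → K)
    (hp : ∀ a, 0 < p a) (hq : ∀ k, 0 < q k) (hp1 : ∑ a, p a = 1) (hq1 : ∑ k, q k = 1)
    (hd : ∀ a, q (d a) =
      Real.exp (∑ b, Real.negMulLog (p b) - ∑ k, Real.negMulLog (q k)) * p a)
    (hL : 2 ≤ Fintype.card L) (hK : 2 ≤ Fintype.card K) (m : ℝ) (h0 : 0 ≤ m)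
    (hm : ∀ a, m ≤ p a) : Real.binEntropy m ≤ ∑ k, Real.negMulLog (q k) := by
  obtain ⟨H, hH⟩ : ∃ H, H = ∑ b, Real.negMulLog (p b) := ⟨_, rfl⟩
  obtain ⟨H', hH'⟩ : ∃ H', H' = ∑ k, Real.negMulLog (q k) := ⟨_, rfl⟩
  rw [← hH, ← hH'] at hd
  have hbase := num_base p hp hp1 hL m h0 hm
  rw [← hH] at hbase
  rw [← hH']
  rcases le_or_gt H H' with h | h
  · linarith
  have he : 1 ≤ Real.exp (H - H') := Real.one_le_exp (by linarith)
  have hge : ∀ a, p a ≤ q (d a) := fun a => by
    rw [hd a]
    nlinarith [hp a]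
  by_cases hc : ∃ a b, d a ≠ d b
  · obtain ⟨a, b, hab⟩ := hc
    have h1 := le_one_sub q hq hq1 hab
    have h2 := bin_le q hq hq1 (d a)
    rw [← hH'] at h2
    exact (bin_mono h0 ((hm a).trans (hge a)) (by linarith [hm b, hge b])).trans h2
  · push Not at hc
    haveI : Nontrivial L := Fintype.one_lt_card_iff_nontrivial.mp (by omega)
    obtain ⟨a, -, -⟩ := exists_pair_ne L
    obtain ⟨n, hn⟩ : ∃ n : ℝ, n = (Fintype.card L : ℝ) := ⟨_, rfl⟩
    have hn0 : (0 : ℝ) < n := by
      rw [hn]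
      exact_mod_cast (by omega : 0 < Fintype.card L)
    have hpe : ∀ b, p b = p a := fun b => by
      have h1 : Real.exp (H - H') * p b = Real.exp (H - H') * p a := by
        rw [← hd b, ← hd a, hc b a]
      exact mul_left_cancel₀ (Real.exp_pos _).ne' h1
    have hpn : n * p a = 1 := by
      have := hp1
      rw [Finset.sum_congr rfl fun b _ => hpe b, Finset.sum_const, Finset.card_univ,
        nsmul_eq_mul] at this
      rw [hn]; exact this
    have hHn : H = - Real.log (p a) := by
      rw [hH, Finset.sum_congr rfl fun b _ => congrArg Real.negMulLog (hpe b), Finset.sum_const,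
        Finset.card_univ, nsmul_eq_mul, ← hn, Real.negMulLog]
      calc n * (-p a * Real.log (p a)) = -(n * p a) * Real.log (p a) := by ring
        _ = - Real.log (p a) := by rw [hpn]; ring
    have hlog : Real.log (q (d a)) = -H' := by
      rw [hd a, Real.log_mul (Real.exp_pos _).ne' (hp a).ne', Real.log_exp]
      linarith
    have hlt : Real.log 2 ≤ H' := by
      by_contra hlt
      push Not at hlt
      have h1 : (2 : ℝ)⁻¹ < q (d a) := by
        have h2 : Real.log (2 : ℝ)⁻¹ < Real.log (q (d a)) := by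
          rw [Real.log_inv, hlog]
          linarith
        exact (Real.log_lt_log_iff (by norm_num) (hq _)).1 h2
      haveI : Nontrivial K := Fintype.one_lt_card_iff_nontrivial.mp (by omega)
      obtain ⟨k, hk⟩ := exists_ne (d a)
      have hle : ∀ l, l ≠ d a → q l < q (d a) := fun l hl => by
        have h2 := le_one_sub q hq hq1 hl
        have h3 : (2 : ℝ)⁻¹ + 2⁻¹ = 1 := by norm_num
        linarith
      have hsum : ∑ l, q l * (- Real.log (q (d a))) < ∑ l, Real.negMulLog (q l) := by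
        refine Finset.sum_lt_sum (fun l _ => ?_) ⟨k, Finset.mem_univ _, ?_⟩
        · rw [Real.negMulLog]
          by_cases hl : l = d a
          · rw [hl]
            linarith
          · have := Real.log_le_log (hq l) (hle l hl).le
            nlinarith [hq l]
        · rw [Real.negMulLog]
          have := Real.log_lt_log (hq k) (hle k hk)
          nlinarith [hq k]
      rw [← Finset.sum_mul, hq1, one_mul, ← hH', hlog] at hsum
      linarith
    exact Real.binEntropy_le_log_two.trans hlt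

/-- The decoder case. -/
theorem num_D {L K : Type} [Fintype L] [Fintype K] (p : L → ℝ) (q : K → ℝ) (d : K → L)
    (hp : ∀ a, 0 < p a) (hq : ∀ k, 0 < q k) (hp1 : ∑ a, p a = 1) (hq1 : ∑ k, q k = 1)
    (hd : ∀ k, p (d k) =
      Real.exp (∑ l, Real.negMulLog (q l) - ∑ b, Real.negMulLog (p b)) * q k)
    (hL : 2 ≤ Fintype.card L) (hK : 2 ≤ Fintype.card K) (m : ℝ) (h0 : 0 ≤ m)
    (hm : ∀ a, m ≤ p a) : Real.binEntropy m ≤ ∑ k, Real.negMulLog (q k) := by
  obtain ⟨H, hH⟩ : ∃ H, H = ∑ b, Real.negMulLog (p b) := ⟨_, rfl⟩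
  obtain ⟨H', hH'⟩ : ∃ H', H' = ∑ k, Real.negMulLog (q k) := ⟨_, rfl⟩
  rw [← hH, ← hH'] at hd
  have hbase := num_base p hp hp1 hL m h0 hm
  rw [← hH] at hbase
  rw [← hH']
  rcases le_or_gt H H' with h | h
  · linarith
  have he : Real.exp (H' - H) ≤ 1 := Real.exp_le_one_iff.2 (by linarith)
  have hge : ∀ k, m ≤ q k := fun k => by
    have h1 := hm (d k)
    rw [hd k] at h1
    nlinarith [hq k]
  haveI : Nontrivial K := Fintype.one_lt_card_iff_nontrivial.mp (by omega)
  obtain ⟨k, l, hkl⟩ := exists_pair_ne K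
  have h1 := le_one_sub q hq hq1 hkl
  have h2 := bin_le q hq hq1 k
  rw [← hH'] at h2
  exact (bin_mono h0 (hge k) (by linarith [hge l])).trans h2

/-- The partition is not trivial. -/
theorem two_le_card (G L K : Type) [Group G] [Countable G] [Fintype L] [Fintype K]
    [MeasurableSpace L] [MeasurableSingletonClass L] [MeasurableSpace K]
    [MeasurableSingletonClass K] (lam : Measure L) [IsProbabilityMeasure lam] (α : (G → L) → K)
    (hlam : ∀ a, lam {a} ≠ 0) (δ : (G → K) → L)
    (hδ : ∀ᵐ x ∂(bm G lam), δ (fun g => α (sh g x)) = x 1) (hL : 2 ≤ Fintype.card L) :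
    2 ≤ Fintype.card K := by
  by_contra hK
  have hK1 : Fintype.card K ≤ 1 := by omega
  haveI : Subsingleton K := Fintype.card_le_one_iff_subsingleton.mp hK1
  have hne : Nonempty L := Fintype.card_pos_iff.mp (by omega)
  obtain ⟨a0⟩ := hne
  set l : L := δ (fun g => α (sh g (fun _ : G => a0))) with hl
  obtain ⟨a, ha⟩ : ∃ a : L, a ≠ l := by
    haveI : Nontrivial L := Fintype.one_lt_card_iff_nontrivial.mp (by omega)
    exact exists_ne l
  have h1 : ∀ᵐ x ∂(bm G lam), x 1 = l := by
    filter_upwards [hδ] with x hx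
    rw [← hx, hl]
    congr 1
    exact Subsingleton.elim _ _
  have h2 : bm G lam ((fun x : G → L => x 1) ⁻¹' {a}) = lam {a} := by
    have hmp : MeasurePreserving (fun x : G → L => x 1) (bm G lam) lam :=
      measurePreserving_eval_infinitePi (fun _ : G => lam) 1
    exact hmp.measure_preimage (measurableSet_singleton a).nullMeasurableSet
  have h3 : bm G lam ((fun x : G → L => x 1) ⁻¹' {a}) = 0 := by
    refine measure_mono_null ?_ (ae_iff.mp h1)
    intro x hx
    simp only [Set.mem_preimage, Set.mem_singleton_iff] at hx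
    simp only [Set.mem_setOf_eq]
    rw [hx]
    exact ha
  exact hlam a (h2 ▸ h3)

/-- One side with a finite window: the lower bound for all bases. -/
theorem one_side (G L K : Type) [Group G] [Countable G] [Fintype L] [Fintype K]
    [MeasurableSpace L] [MeasurableSingletonClass L] [MeasurableSpace K]
    [MeasurableSingletonClass K] (lam : Measure L) [IsProbabilityMeasure lam] (α : (G → L) → K)
    (hlam : ∀ a, lam {a} ≠ 0) (hα : Measurable α) (hpos : ∀ k, bm G lam (α ⁻¹' {k}) ≠ 0)
    (hind : ProbabilityTheory.iIndepFun (fun (g : G) (x : G → L) => α (sh g x)) (bm G lam))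
    (hside : (Gen (bm G lam) α ∧
        ∃ W : Finset G, ∀ x y : G → L, (∀ g ∈ W, x g = y g) → α x = α y) ∨
      ∃ δ : (G → K) → L, (∃ V : Finset G, ∀ y z : G → K, (∀ g ∈ V, y g = z g) → δ y = δ z) ∧
        ∀ᵐ x ∂(bm G lam), δ (fun g => α (sh g x)) = x 1)
    (hL : 2 ≤ Fintype.card L) (m : ℝ) (h0 : 0 ≤ m) (hm : ∀ a, m ≤ lam.real {a}) :
    Real.binEntropy m ≤ ∑ k, Real.negMulLog ((bm G lam).real (α ⁻¹' {k})) := by
  haveI hprob : IsProbabilityMeasure (bm G lam) := by
    unfold bm; infer_instance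
  obtain ⟨hE, hD⟩ := all_FIN G L K lam α hlam hα hpos hind
  have hp : ∀ a, 0 < lam.real {a} := fun a => ENNReal.toReal_pos (hlam a) (measure_ne_top _ _)
  have hq : ∀ k, 0 < (bm G lam).real (α ⁻¹' {k}) := fun k =>
    ENNReal.toReal_pos (hpos k) (measure_ne_top _ _)
  have hp1 : ∑ a, lam.real {a} = 1 := by
    rw [sum_measureReal_singleton, Finset.coe_univ, probReal_univ]
  have hq1 : ∑ k, (bm G lam).real (α ⁻¹' {k}) = 1 := by
    haveI : IsProbabilityMeasure (Measure.map α (bm G lam)) :=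
      Measure.isProbabilityMeasure_map hα.aemeasurable
    have h1 : ∑ k, (Measure.map α (bm G lam)).real {k} = 1 := by
      rw [sum_measureReal_singleton, Finset.coe_univ, probReal_univ]
    rw [← h1]
    refine Finset.sum_congr rfl fun k _ => ?_
    rw [map_measureReal_apply hα (measurableSet_singleton k)]
  rcases hside with ⟨hg, hw⟩ | ⟨δ, ⟨V, hV⟩, hδ⟩
  · obtain ⟨h3, -⟩ := hE hg hw
    obtain ⟨ψ, -, hψ⟩ := all_DEC G L K lam α hα hg
    have hK := two_le_card G L K lam α hlam (fun y => ψ y 1)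
      (by filter_upwards [hψ] with x hx; rw [hx]) hL
    exact num_E (fun a => lam.real {a}) (fun k => (bm G lam).real (α ⁻¹' {k}))
      (fun a => α fun _ => a) hp hq hp1 hq1 h3 hL hK m h0 hm
  · obtain ⟨h3, -⟩ := hD V δ hV hδ
    have hK := two_le_card G L K lam α hlam δ hδ hL
    exact num_D (fun a => lam.real {a}) (fun k => (bm G lam).real (α ⁻¹' {k}))
      (fun k => δ fun _ => k) hp hq hp1 hq1 h3 hL hK m h0 hm

end Pool.Agent.Work.MP_574bbd_an.OB
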