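import Mathlib
import Pool.Agent.Work.MP_574bbd_an.OB.Bin

/-!
# MP_574bbd_an, block OB: countable partitions
-/

set_option autoImplicit false

namespace Pool.Agent.Work.MP_574bbd_an.OB

open MeasureTheory
open scoped Pointwise Classical

theorem cnt_delta_meas {G L K : Type} [Countable K] [MeasurableSpace L] [MeasurableSpace K]
    [MeasurableSingletonClass K] (V : Finset G) (δ : (G → K) → L)
    (hδ : ∀ y z : G → K, (∀ g ∈ V, y g = z g) → δ y = δ z) : Measurable δ := by
  intro s _
  have hr : Measurable (fun (y : G → K) (g : {g // g ∈ V}) => y g.1) :=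
    measurable_pi_lambda _ fun g => measurable_pi_apply g.1
  have h1 : δ ⁻¹' s = (fun (y : G → K) (g : {g // g ∈ V}) => y g.1) ⁻¹'
      ((fun (y : G → K) (g : {g // g ∈ V}) => y g.1) '' (δ ⁻¹' s)) := by
    apply Set.Subset.antisymm
    · exact Set.subset_preimage_image _ _
    · rintro y ⟨z, hz, hzy⟩
      have h2 : δ y = δ z := by
        apply hδ
        intro g hg
        exact (congrFun hzy ⟨g, hg⟩).symm
      show δ y ∈ s
      rw [h2]
      exact hz
  rw [h1]
  exact hr (Set.to_countable _).measurableSet

/-- The isomorphism given by a decoder with a finite window, countable partitions. -/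
theorem cnt_ID (G L K : Type) [Group G] [Countable G] [Fintype L] [Countable K]
    [MeasurableSpace L] [MeasurableSingletonClass L] [MeasurableSpace K]
    [MeasurableSingletonClass K] (lam : Measure L) [IsProbabilityMeasure lam] (α : (G → L) → K)
    (hlam : ∀ a, lam {a} ≠ 0) (hα : Measurable α) (hpk : ∀ k, bm G lam (α ⁻¹' {k}) ≠ 0)
    (hind : ProbabilityTheory.iIndepFun (fun (g : G) (x : G → L) => α (sh g x)) (bm G lam))
    (V : Finset G) (δ : (G → K) → L) (hδ : ∀ y z : G → K, (∀ g ∈ V, y g = z g) → δ y = δ z)
    (hae : ∀ᵐ x ∂(bm G lam), δ (fun g => α (sh g x)) = x 1) :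
    ∃ W : Finset G, Iso (Measure.map α (bm G lam)) lam W (fun (y : G → K) g => δ (sh g y))
      (fun (x : G → L) g => α (sh g x)) := by
  have hprob : IsProbabilityMeasure (bm G lam) := by
    unfold bm
    infer_instance
  have hδm : Measurable δ := cnt_delta_meas V δ hδ
  have hΦm : Measurable (fun (x : G → L) (g : G) => α (sh g x)) :=
    measurable_pi_lambda _ fun g => hα.comp (ID_sh_meas g)
  have hψm : Measurable (fun (y : G → K) (g : G) => δ (sh g y)) :=
    measurable_pi_lambda _ fun g => hδm.comp (ID_sh_meas g)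
  have hmp := all_MP G L K lam α hα hind
  have hshΦ : ∀ (g : G) (x : G → L), sh g (fun h => α (sh h x)) = fun h => α (sh h (sh g x)) := by
    intro g x
    funext h
    show α (sh (h * g) x) = α (sh h (sh g x))
    rw [ID_sh_sh]
  have hall : ∀ᵐ x ∂(bm G lam), (fun g => δ (sh g (fun h => α (sh h x)))) = x := by
    have h1 : ∀ᵐ x ∂(bm G lam), ∀ g : G, δ (sh g (fun h => α (sh h x))) = x g := by
      rw [ae_all_iff]
      intro g
      have hp : MeasurePreserving (sh g : (G → L) → (G → L)) (bm G lam) (bm G lam) :=
        ⟨ID_sh_meas g, pr_SHM G L lam g⟩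
      have h2 := hp.quasiMeasurePreserving.ae hae
      filter_upwards [h2] with x hx
      rw [hshΦ, hx]
      show x (1 * g) = x g
      rw [one_mul]
    filter_upwards [h1] with x hx
    funext g
    exact hx g
  refine ⟨insert 1 V, ?_⟩
  refine ⟨Finset.mem_insert_self _ _, ?_, hlam, hψm, hΦm, ?_, ?_, ?_, ?_⟩
  · intro k
    rw [Measure.map_apply hα (measurableSet_singleton k)]
    exact hpk k
  · intro g y
    funext h
    show δ (sh h (sh g y)) = δ (sh (h * g) y)
    rw [ID_sh_sh]
  · rw [← hmp, Measure.map_map hψm hΦm]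
    have h1 : ((fun (y : G → K) (g : G) => δ (sh g y)) ∘ fun (x : G → L) (g : G) => α (sh g x))
        =ᵐ[bm G lam] id := hall
    rw [Measure.map_congr h1, Measure.map_id]
  · rw [← hmp]
    have h1 : ∀ᵐ y ∂(Measure.map (fun (x : G → L) (g : G) => α (sh g x)) (bm G lam)), ∀ g : G,
        α (sh g (fun h => δ (sh h y))) = y g := by
      rw [ae_all_iff]
      intro g
      rw [ae_map_iff hΦm.aemeasurable]
      · filter_upwards [hall] with x hx
        rw [hx]
      · exact measurableSet_eq_fun ((measurable_pi_apply g).comp (hΦm.comp hψm))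
          (measurable_pi_apply g)
    filter_upwards [h1] with y hy
    funext g
    exact hy g
  · intro y z hyz
    apply hδ
    intro g hg
    show y (g * 1) = z (g * 1)
    rw [mul_one]
    exact hyz g (Finset.mem_insert_of_mem hg)

/-- The potential takes the same value at all constant points, countable alphabets. -/
theorem ratio (G L K : Type) [Group G] [Countable G] [Countable L] [Countable K]
    [MeasurableSpace L] [MeasurableSingletonClass L] [MeasurableSpace K]
    [MeasurableSingletonClass K] (lam : Measure L) (kap : Measure K) [IsProbabilityMeasure lam]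
    [IsProbabilityMeasure kap] (W : Finset G) (φ : (G → L) → (G → K)) (ψ : (G → K) → (G → L))
    (hI : Iso lam kap W φ ψ) (a b : L) :
    Real.log (kap.real {φ (fun _ => a) 1}) - Real.log (lam.real {a}) =
      Real.log (kap.real {φ (fun _ => b) 1}) - Real.log (lam.real {b}) := by
  set x : G → L := fun _ => a with hx
  set c : G → L := fun _ => b with hc
  set u : (G → L) → ℝ := fun z => Real.log (kap.real {φ z 1}) - Real.log (lam.real {z 1}) with hu
  set f : Finset G → ℝ := fun E => u (ow E x c) with hf
  have hushift : ∀ (g : G) (z : G → L),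
      u (sh g z) = Real.log (kap.real {φ z g}) - Real.log (lam.real {z g}) := by
    intro g z
    have e1 : φ (sh g z) 1 = φ z g := by
      rw [hI.eq g z]
      show φ z (1 * g) = φ z g
      rw [one_mul]
    have e2 : sh g z 1 = z g := by
      show z (1 * g) = z g
      rw [one_mul]
    show Real.log (kap.real {φ (sh g z) 1}) - Real.log (lam.real {sh g z 1}) = _
    rw [e1, e2]
  have hphic : ∀ g : G, u c = Real.log (kap.real {φ c g}) - Real.log (lam.real {c g}) :=
    fun g => hushift g c
  have hempty : f ∅ = u c := by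
    have e : ow ∅ x c = c := by
      funext g
      simp [ow]
    show u (ow ∅ x c) = u c
    rw [e]
  have hloc : ∀ z z' : G → L, (∀ g ∈ W, z g = z' g) → u z = u z' := by
    intro z z' h
    have e1 := hI.loc z z' h
    have e2 := h 1 hI.one
    show Real.log (kap.real {φ z 1}) - Real.log (lam.real {z 1}) =
      Real.log (kap.real {φ z' 1}) - Real.log (lam.real {z' 1})
    rw [e1, e2]
  have h1 : ∀ E : Finset G, f E = f (E ∩ W) := by
    intro E
    refine hloc _ _ fun g hg => ?_
    show ow E x c g = ow (E ∩ W) x c g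
    simp [ow, hg]
  have h2 : ∀ A : Finset G,
      ∑ g ∈ W⁻¹ * A, (f (A.image (fun a => a * g⁻¹)) - f ∅) = 0 := by
    intro A
    have hterm : ∀ g : G, f (A.image (fun a => a * g⁻¹)) - f ∅ =
        (Real.log (kap.real {φ (ow A x c) g}) - Real.log (kap.real {φ c g})) -
          (Real.log (lam.real {ow A x c g}) - Real.log (lam.real {c g})) := by
      intro g
      have e1 : ow (A.image (fun a => a * g⁻¹)) x c = sh g (ow A x c) := by
        funext h
        have e2 : h ∈ A.image (fun a => a * g⁻¹) ↔ h * g ∈ A := by
          rw [Finset.mem_image]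
          constructor
          · rintro ⟨a, ha, rfl⟩
            simpa using ha
          · intro hh
            exact ⟨h * g, hh, by simp⟩
        show (if h ∈ A.image (fun a => a * g⁻¹) then x h else c h) =
          (if h * g ∈ A then x (h * g) else c (h * g))
        by_cases hh : h * g ∈ A
        · rw [if_pos (e2.2 hh), if_pos hh]
        · rw [if_neg (fun h3 => hh (e2.1 h3)), if_neg hh]
      have e3 : f (A.image (fun a => a * g⁻¹)) = u (sh g (ow A x c)) := by
        show u (ow (A.image (fun a => a * g⁻¹)) x c) = _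
        rw [e1]
      rw [e3, hushift, hempty, hphic g]
      ring
    rw [Finset.sum_congr rfl fun g _ => hterm g, Finset.sum_sub_distrib]
    have hco := all_CO G L K lam kap W φ ψ hI A (ow A x c) c (fun g hg => by
      show (if g ∈ A then x g else c g) = c g
      rw [if_neg hg])
    rw [hco, sub_eq_zero]
    have hsub : A ⊆ W⁻¹ * A := by
      intro g hg
      refine Finset.mem_mul.2 ⟨1, ?_, g, hg, one_mul g⟩
      rw [Finset.mem_inv]
      exact ⟨1, hI.one, inv_one⟩
    refine Finset.sum_subset hsub fun g _ hg => ?_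
    have e4 : ow A x c g = c g := by
      show (if g ∈ A then x g else c g) = c g
      rw [if_neg hg]
    rw [e4, sub_self]
  have h3 := all_CM G W f h1 h2
  have h4 : f W = u x := by
    refine hloc _ _ fun g hg => ?_
    show (if g ∈ W then x g else c g) = x g
    rw [if_pos hg]
  rw [hempty, h4] at h3
  exact h3

/-- A countable independent partition with a finite window decoder is finite. -/
theorem finite_letters (G L K : Type) [Group G] [Countable G] [Fintype L] [Countable K]
    [MeasurableSpace L] [MeasurableSingletonClass L] [MeasurableSpace K]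
    [MeasurableSingletonClass K] (lam : Measure L) [IsProbabilityMeasure lam] (α : (G → L) → K)
    (hlam : ∀ a, lam {a} ≠ 0) (hα : Measurable α) (hpk : ∀ k, bm G lam (α ⁻¹' {k}) ≠ 0)
    (hind : ProbabilityTheory.iIndepFun (fun (g : G) (x : G → L) => α (sh g x)) (bm G lam))
    (V : Finset G) (δ : (G → K) → L) (hδ : ∀ y z : G → K, (∀ g ∈ V, y g = z g) → δ y = δ z)
    (hae : ∀ᵐ x ∂(bm G lam), δ (fun g => α (sh g x)) = x 1) : Finite K := by
  by_contra hK
  rw [not_finite_iff_infinite] at hK
  have hprob : IsProbabilityMeasure (bm G lam) := by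
    unfold bm
    infer_instance
  haveI : IsProbabilityMeasure (Measure.map α (bm G lam)) :=
    Measure.isProbabilityMeasure_map hα.aemeasurable
  obtain ⟨W, hI⟩ := cnt_ID G L K lam α hlam hα hpk hind V δ hδ hae
  obtain ⟨kap, hkap⟩ : ∃ kap, kap = Measure.map α (bm G lam) := ⟨_, rfl⟩
  rw [← hkap] at hI
  haveI : IsProbabilityMeasure kap := by rw [hkap]; infer_instance
  obtain ⟨l⟩ : Nonempty K := inferInstance
  have hr := fun k => ratio G K L kap lam W _ _ hI k l
  obtain ⟨r, hrr⟩ : ∃ r, r = Real.log (lam.real {δ (sh 1 fun _ : G => l)}) -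
    Real.log (kap.real {l}) := ⟨_, rfl⟩
  have hpos : ∀ k, 0 < kap.real {k} := fun k => ENNReal.toReal_pos (hI.pl k) (measure_ne_top _ _)
  have hlpos : ∀ a, 0 < lam.real {a} := fun a =>
    ENNReal.toReal_pos (hlam a) (measure_ne_top _ _)
  have hval : ∀ k, kap.real {k} = lam.real {δ (sh 1 fun _ : G => k)} * Real.exp (-r) := fun k => by
    have h1 : Real.log (lam.real {δ (sh 1 fun _ : G => k)}) - Real.log (kap.real {k}) = r := by
      rw [hrr]
      exact hr k
    have h2 : Real.log (kap.real {k}) =
        Real.log (lam.real {δ (sh 1 fun _ : G => k)}) + -r := by linarith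
    rw [← Real.exp_log (hpos k), h2, Real.exp_add, Real.exp_log (hlpos _)]
  haveI : Nonempty L := ⟨δ (sh 1 fun _ : G => l)⟩
  obtain ⟨a0, ha0⟩ := Finite.exists_min (fun a : L => lam.real {a})
  obtain ⟨e, he⟩ : ∃ e, e = lam.real {a0} * Real.exp (-r) := ⟨_, rfl⟩
  have he0 : 0 < e := by rw [he]; exact mul_pos (hlpos a0) (Real.exp_pos _)
  have hge : ∀ k, e ≤ kap.real {k} := fun k => by
    rw [he, hval k]
    exact mul_le_mul_of_nonneg_right (ha0 _) (Real.exp_pos _).le
  obtain ⟨n, hn⟩ := exists_nat_gt (1 / e)
  obtain ⟨s, hs⟩ := Infinite.exists_subset_card_eq K n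
  have h1 : (n : ℝ) * e ≤ ∑ k ∈ s, kap.real {k} := by
    rw [← hs, ← nsmul_eq_mul]
    exact Finset.card_nsmul_le_sum _ _ _ fun k _ => hge k
  have h2 : ∑ k ∈ s, kap.real {k} ≤ 1 := by
    rw [sum_measureReal_singleton]
    exact measureReal_le_one
  have h3 : 1 < (n : ℝ) * e := by
    rw [div_lt_iff₀ he0] at hn
    exact hn
  linarith

/-- A partition with positive cells which depends on finitely many coordinates is finite. -/
theorem finite_cells (G L K : Type) [Finite L] [MeasurableSpace L] (lam : Measure L)
    (α : (G → L) → K) (hpk : ∀ k, bm G lam (α ⁻¹' {k}) ≠ 0)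
    (hw : ∃ W : Finset G, ∀ x y : G → L, (∀ g ∈ W, x g = y g) → α x = α y) : Finite K := by
  obtain ⟨W, hW⟩ := hw
  have hsur : Function.Surjective α := fun k => by
    by_contra h
    refine hpk k ?_
    have : α ⁻¹' {k} = ∅ := by
      ext x
      simp only [Set.mem_preimage, Set.mem_singleton_iff, Set.mem_empty_iff_false, iff_false]
      exact fun hx => h ⟨x, hx⟩
    rw [this, measure_empty]
  rcases isEmpty_or_nonempty L with hL | hL
  · rcases isEmpty_or_nonempty G with hG | hG
    · haveI : Finite (G → L) := inferInstance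
      exact Finite.of_surjective α hsur
    · haveI : IsEmpty (G → L) := ⟨fun x => hL.false (x hG.some)⟩
      haveI : Finite (G → L) := inferInstance
      exact Finite.of_surjective α hsur
  · obtain ⟨l⟩ := hL
    let β : ({g // g ∈ W} → L) → K := fun p => α fun g => if h : g ∈ W then p ⟨g, h⟩ else l
    have hβ : Function.Surjective β := fun k => by
      obtain ⟨x, hx⟩ := hsur k
      refine ⟨fun g => x g.1, ?_⟩
      rw [← hx]
      refine hW _ _ fun g hg => ?_
      simp [hg]
    exact Finite.of_surjective β hβ

end Pool.Agent.Work.MP_574bbd_an.OB
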