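import Pool.Agent.Work.MP_574bbd_an.OB.Stmts

set_option autoImplicit false

namespace Pool.Agent.Work.MP_574bbd_an.OB

open scoped Pointwise Classical

namespace ICM

variable {G : Type} [Group G]

/-- The translate of a finite set. -/
noncomputable def tr (D : Finset G) (g : G) : Finset G := D.image (fun a => a * g)

theorem mem_tr {D : Finset G} {g x : G} : x ∈ tr D g ↔ x * g⁻¹ ∈ D := by
  unfold tr
  rw [Finset.mem_image]
  constructor
  · rintro ⟨a, ha, rfl⟩
    simpa using ha
  · intro h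
    exact ⟨x * g⁻¹, h, by simp⟩

theorem tr_tr (D : Finset G) (g h : G) : tr (tr D g) h = tr D (g * h) := by
  ext x
  rw [mem_tr, mem_tr, mem_tr, mul_inv_rev, mul_assoc]

theorem tr_one (D : Finset G) : tr D 1 = D := by
  ext x
  rw [mem_tr, inv_one, mul_one]

noncomputable def cn (W D B : Finset G) : ℕ := ((W⁻¹ * B).filter (fun g => tr D g = B)).card

noncomputable def cs (W D A : Finset G) : ℕ := ((W⁻¹ * A).filter (fun g => tr D g ⊆ A)).card

theorem mem_of_tr {W D B : Finset G} (hD : D.Nonempty) (hDW : D ⊆ W) {g : G} (h : tr D g ⊆ B) :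
    g ∈ W⁻¹ * B := by
  obtain ⟨d, hd⟩ := hD
  have h1 : d * g ∈ B := h (by rw [mem_tr]; simpa using hd)
  rw [Finset.mem_mul]
  exact ⟨d⁻¹, Finset.inv_mem_inv (hDW hd), d * g, h1, by simp⟩

theorem cs_eq (W D A : Finset G) (hD : D.Nonempty) (hDW : D ⊆ W) :
    cs W D A = ∑ B ∈ A.powerset, cn W D B := by
  unfold cs cn
  rw [Finset.card_eq_sum_card_fiberwise (f := fun g => tr D g) (t := A.powerset)]
  · refine Finset.sum_congr rfl fun B hB => ?_
    rw [Finset.mem_powerset] at hB
    congr 1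
    ext g
    simp only [Finset.mem_filter]
    constructor
    · rintro ⟨⟨h1, h2⟩, h3⟩
      exact ⟨mem_of_tr hD hDW h3.le, h3⟩
    · rintro ⟨h1, h3⟩
      exact ⟨⟨Finset.mul_subset_mul_left hB h1, h3 ▸ hB⟩, h3⟩
  · intro g hg
    have h := (Finset.mem_filter.1 (Finset.mem_coe.1 hg)).2
    exact Finset.mem_coe.2 (Finset.mem_powerset.2 h)

theorem cn_empty (W D : Finset G) : cn W D ∅ = 0 := by
  unfold cn
  simp

theorem cs_translate (W D B : Finset G) (hD : D.Nonempty) (hDW : D ⊆ W) (hB : B.Nonempty)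
    (hBW : B ⊆ W) (h : G) (hh : tr D h = B) : cs W B W = cs W D W := by
  unfold cs
  refine Finset.card_bij (fun g _ => h * g) ?_ ?_ ?_
  · intro g hg
    have h2 := (Finset.mem_filter.1 hg).2
    rw [← hh, tr_tr] at h2
    exact Finset.mem_filter.2 ⟨mem_of_tr hD hDW h2, h2⟩
  · intro a _ b _ hab
    exact mul_left_cancel hab
  · intro g hg
    have h2 := (Finset.mem_filter.1 hg).2
    refine ⟨h⁻¹ * g, ?_, by simp⟩
    have h3 : tr B (h⁻¹ * g) ⊆ W := by
      rw [← hh, tr_tr, mul_inv_cancel_left]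
      exact h2
    exact Finset.mem_filter.2 ⟨mem_of_tr hB hBW h3, h3⟩

theorem diff (W A : Finset G) (f F : Finset G → ℝ) (hW : ∀ E : Finset G, f E = f (E ∩ W))
    (hF : ∀ E : Finset G, f E = ∑ D ∈ E.powerset, F D) (g : G) :
    f (A.image (fun a => a * g⁻¹)) - f ∅ =
      ∑ D ∈ W.powerset.erase ∅, if tr D g ⊆ A then F D else 0 := by
  have h0 : f ∅ = F ∅ := by rw [hF ∅]; simp
  rw [hW, hF (A.image (fun a => a * g⁻¹) ∩ W), h0,
    ← Finset.add_sum_erase _ _ (Finset.empty_mem_powerset _), add_sub_cancel_left,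
    ← Finset.sum_filter]
  refine Finset.sum_congr ?_ fun _ _ => rfl
  ext D
  simp only [Finset.mem_erase, Finset.mem_powerset, Finset.mem_filter]
  have key : D ⊆ A.image (fun a => a * g⁻¹) ↔ tr D g ⊆ A := by
    constructor
    · intro h x hx
      rw [mem_tr] at hx
      obtain ⟨a, ha, hax⟩ := Finset.mem_image.1 (h hx)
      have : a = x := mul_right_cancel hax
      rwa [← this]
    · intro h x hx
      refine Finset.mem_image.2 ⟨x * g, h (by rw [mem_tr]; simpa using hx), by simp⟩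
  rw [Finset.subset_inter_iff, key]
  tauto

end ICM

open ICM in
theorem pr_CM (hM1 : S_M1) (hM2 : S_M2) : S_CM := by
  intro G _ W f hW hA
  obtain ⟨F, hF⟩ := hM1 G f
  have hmem : ∀ D ∈ W.powerset.erase (∅ : Finset G), D.Nonempty ∧ D ⊆ W := by
    intro D hD
    rw [Finset.mem_erase, Finset.mem_powerset] at hD
    exact ⟨Finset.nonempty_iff_ne_empty.2 hD.1, hD.2⟩
  -- the sums over all subsets vanish
  have h1 : ∀ A : Finset G, ∑ D ∈ W.powerset.erase ∅, F D * (cs W D A : ℝ) = 0 := by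
    intro A
    have h := hA A
    rw [Finset.sum_congr rfl (fun g _ => diff W A f F hW hF g), Finset.sum_comm] at h
    rw [← h]
    refine Finset.sum_congr rfl fun D _ => ?_
    rw [← Finset.sum_filter, Finset.sum_const, nsmul_eq_mul, mul_comm]
    rfl
  have h2 : ∀ B : Finset G, ∑ D ∈ W.powerset.erase ∅, F D * (cn W D B : ℝ) = 0 := by
    apply hM2 G (fun B => ∑ D ∈ W.powerset.erase ∅, F D * (cn W D B : ℝ))
    intro A
    rw [Finset.sum_comm, ← h1 A]
    refine Finset.sum_congr rfl fun D hD => ?_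
    rw [cs_eq W D A (hmem D hD).1 (hmem D hD).2, Nat.cast_sum, Finset.mul_sum]
  have h3 : f W - f ∅ = ∑ D ∈ W.powerset.erase ∅, F D := by
    have h0 : f ∅ = F ∅ := by rw [hF ∅]; simp
    rw [hF W, h0, ← Finset.add_sum_erase _ _ (Finset.empty_mem_powerset W), add_sub_cancel_left]
  have h4 : ∑ D ∈ W.powerset.erase ∅, F D =
      ∑ B ∈ W.powerset.erase ∅, (1 / (cs W B W : ℝ)) *
        ∑ D ∈ W.powerset.erase ∅, F D * (cn W D B : ℝ) := by
    simp only [Finset.mul_sum]
    rw [Finset.sum_comm]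
    refine Finset.sum_congr rfl fun D hD => ?_
    obtain ⟨hDn, hDW⟩ := hmem D hD
    have h5 : ∀ B ∈ W.powerset.erase (∅ : Finset G),
        1 / (cs W B W : ℝ) * (F D * (cn W D B : ℝ)) = F D / (cs W D W : ℝ) * (cn W D B : ℝ) := by
      intro B hB
      obtain ⟨hBn, hBW⟩ := hmem B hB
      by_cases hn : cn W D B = 0
      · rw [hn]
        simp
      · obtain ⟨g, hg⟩ := Finset.card_pos.1 (Nat.pos_of_ne_zero hn)
        rw [cs_translate W D B hDn hDW hBn hBW g (Finset.mem_filter.1 hg).2]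
        ring
    rw [Finset.sum_congr rfl h5, ← Finset.mul_sum]
    have h6 : (cs W D W : ℝ) = ∑ B ∈ W.powerset.erase (∅ : Finset G), (cn W D B : ℝ) := by
      rw [cs_eq W D W hDn hDW, ← Finset.add_sum_erase _ _ (Finset.empty_mem_powerset W), cn_empty,
        zero_add, Nat.cast_sum]
    have h7 : (cs W D W : ℝ) ≠ 0 := by
      have : 0 < cs W D W := by
        unfold cs
        refine Finset.card_pos.2 ⟨1, Finset.mem_filter.2 ⟨?_, ?_⟩⟩
        · exact mem_of_tr hDn hDW (by rw [tr_one]; exact hDW)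
        · rw [tr_one]
          exact hDW
      exact_mod_cast this.ne'
    rw [← h6, div_mul_cancel₀ _ h7]
  have h8 : f W - f ∅ = 0 := by
    rw [h3, h4]
    refine Finset.sum_eq_zero fun B _ => ?_
    rw [h2 B, mul_zero]
  linarith

end Pool.Agent.Work.MP_574bbd_an.OB
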