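import Pool.Agent.Work.MP_574bbd_an.OB.Stmts

/-!
# Block OB, item K2: the partition is not trivial
-/

set_option autoImplicit false

namespace Pool.Agent.Work.MP_574bbd_an.OB

open MeasureTheory
open scoped Pointwise Classical

theorem pr_K2 : S_K2 := by
  intro G L K _ _ _ _ _ _ _ _ lam _ α hlam hα δ hδ hL
  by_contra hK
  have hK1 : Fintype.card K ≤ 1 := by omega
  haveI : Subsingleton K := Fintype.card_le_one_iff_subsingleton.mp hK1
  have hne : Nonempty L := Fintype.card_pos_iff.mp (by omega)
  obtain ⟨a0⟩ := hne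
  set l : L := δ (fun g => α (sh g (fun _ : G => a0))) with hl
  obtain ⟨a, ha⟩ : ∃ a : L, a ≠ l := by
    haveI : Nontrivial L := Fintype.one_lt_card_iff_nontrivial.mp (by omega)
    exact exists_ne l
  have h1 : ∀ᵐ x ∂(bm G lam), x 1 = l := by
    filter_upwards [hδ] with x hx
    rw [← hx, hl]
    congr 1
    exact Subsingleton.elim _ _
  have h2 : bm G lam ((fun x : G → L => x 1) ⁻¹' {a}) = lam {a} := by
    have hmp : MeasurePreserving (fun x : G → L => x 1) (bm G lam) lam :=
      measurePreserving_eval_infinitePi (fun _ : G => lam) 1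
    exact hmp.measure_preimage (measurableSet_singleton a).nullMeasurableSet
  have h3 : bm G lam ((fun x : G → L => x 1) ⁻¹' {a}) = 0 := by
    refine measure_mono_null ?_ (ae_iff.mp h1)
    intro x hx
    simp only [Set.mem_preimage, Set.mem_singleton_iff] at hx
    simp only [Set.mem_setOf_eq]
    rw [hx]
    exact ha
  exact hlam a (h2 ▸ h3)

end Pool.Agent.Work.MP_574bbd_an.OB
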