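import Pool.Agent.Work.MP_574bbd_an.OB.Stmts

/-!
# MP_574bbd_an, block OB, item SHM: the shift preserves the product measure
-/

set_option autoImplicit false

namespace Pool.Agent.Work.MP_574bbd_an.OB

open MeasureTheory
open scoped Pointwise Classical

theorem pr_SHM : S_SHM := by
  intro G K _ _ ν _ g
  have h := Measure.infinitePi_map_piCongrLeft (μ := fun _ : G => ν) (Equiv.mulRight g).symm
  have e : sh g = ⇑(MeasurableEquiv.piCongrLeft (fun _ : G => K) (Equiv.mulRight g).symm) := by
    funext x k
    have hk : k = (Equiv.mulRight g).symm (k * g) := by simp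
    conv_rhs => rw [hk]
    rw [MeasurableEquiv.piCongrLeft_apply_apply]
    rfl
  rw [e]
  exact h

end Pool.Agent.Work.MP_574bbd_an.OB
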